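import Mathlib

/-!
# The polynomial ring in countably many variables over `𝔽_2`, its Frobenius splitting, and the
specialisations of the first variable
-/

set_option autoImplicit false

namespace Pool.Agent.H215R3.DF

open MvPolynomial

abbrev P := MvPolynomial ℕ (ZMod 2)

/-- the first variable goes to `1`, the others are shifted -/
noncomputable def O : P →+* P := (aeval (R := ZMod 2) (fun n => if n = 0 then (1 : P) else X (n - 1))).toRingHom

/-- the first variable goes to `0`, the others are shifted -/
noncomputable def Z : P →+* P := (aeval (R := ZMod 2) (fun n => if n = 0 then (0 : P) else X (n - 1))).toRingHom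

/-- shift up -/
noncomputable def J : P →+* P := (rename (R := ZMod 2) Nat.succ).toRingHom

lemma O_C (a : ZMod 2) : O (C a) = C a := by simp [O]
lemma Z_C (a : ZMod 2) : Z (C a) = C a := by simp [Z]
lemma J_C (a : ZMod 2) : J (C a) = C a := by simp [J]
lemma O_X0 : O (X 0) = 1 := by simp [O]
lemma Z_X0 : Z (X 0) = 0 := by simp [Z]
lemma O_Xs (n : ℕ) : O (X (n + 1)) = X n := by simp [O]
lemma Z_Xs (n : ℕ) : Z (X (n + 1)) = X n := by simp [Z]
lemma J_X (n : ℕ) : J (X n) = X (n + 1) := by simp [J]

lemma O_J (f : P) : O (J f) = f := by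
  have : (O.comp J) = RingHom.id P := by
    apply MvPolynomial.ringHom_ext
    · intro a
      simp [J_C, O_C]
    · intro n
      simp [J_X, O_Xs]
  exact congrArg (fun φ : P →+* P => φ f) this

lemma Z_J (f : P) : Z (J f) = f := by
  have : (Z.comp J) = RingHom.id P := by
    apply MvPolynomial.ringHom_ext
    · intro a
      simp [J_C, Z_C]
    · intro n
      simp [J_X, Z_Xs]
  exact congrArg (fun φ : P →+* P => φ f) this

lemma sub_J_O (f : P) : ∃ g, f = J (O f) + (X 0 - 1) * g := by
  induction f using MvPolynomial.induction_on with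
  | C a => exact ⟨0, by simp [O_C, J_C]⟩
  | add f g hf hg =>
    obtain ⟨a, ha⟩ := hf
    obtain ⟨b, hb⟩ := hg
    refine ⟨a + b, ?_⟩
    rw [map_add, map_add]
    linear_combination ha + hb
  | mul_X f n hf =>
    obtain ⟨a, ha⟩ := hf
    rw [map_mul, map_mul]
    rcases n with _ | n
    · rw [O_X0, map_one]
      exact ⟨a * X 0 + J (O f), by linear_combination (X 0) * ha⟩
    · rw [O_Xs, J_X]
      exact ⟨a * X (n + 1), by linear_combination (X (n + 1)) * ha⟩

lemma sub_J_Z (f : P) : ∃ g, f = J (Z f) + X 0 * g := by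
  induction f using MvPolynomial.induction_on with
  | C a => exact ⟨0, by simp [Z_C, J_C]⟩
  | add f g hf hg =>
    obtain ⟨a, ha⟩ := hf
    obtain ⟨b, hb⟩ := hg
    refine ⟨a + b, ?_⟩
    rw [map_add, map_add]
    linear_combination ha + hb
  | mul_X f n hf =>
    obtain ⟨a, ha⟩ := hf
    rw [map_mul, map_mul]
    rcases n with _ | n
    · rw [Z_X0, map_zero]
      exact ⟨f, by ring⟩
    · rw [Z_Xs, J_X]
      exact ⟨a * X (n + 1), by linear_combination (X (n + 1)) * ha⟩

/-- half of an exponent vector, rounded up -/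
noncomputable def half (m : ℕ →₀ ℕ) : ℕ →₀ ℕ := m.mapRange (fun k => (k + 1) / 2) rfl

lemma half_apply (m : ℕ →₀ ℕ) (n : ℕ) : half m n = (m n + 1) / 2 := rfl

/-- the Frobenius splitting -/
noncomputable def L : P →ₗ[ZMod 2] P :=
  (basisMonomials ℕ (ZMod 2)).constr (ZMod 2) (fun m => monomial (half m) 1)

lemma L_monomial_one (m : ℕ →₀ ℕ) : L (monomial m 1) = monomial (half m) 1 := by
  have h := (basisMonomials ℕ (ZMod 2)).constr_basis (ZMod 2)
    (fun m => (monomial (half m) 1 : P)) m
  rwa [coe_basisMonomials] at h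

lemma L_monomial (m : ℕ →₀ ℕ) (a : ZMod 2) : L (monomial m a) = monomial (half m) a := by
  have : (monomial m a : P) = a • monomial m 1 := by
    rw [smul_monomial, smul_eq_mul, mul_one]
  rw [this, map_smul, L_monomial_one, smul_monomial, smul_eq_mul, mul_one]

lemma L_one : L 1 = 1 := by
  have := L_monomial 0 1
  have h0 : half 0 = 0 := by
    ext n
    rw [half_apply, Finsupp.zero_apply]
    norm_num
  rw [h0] at this
  exact this

lemma L_sq_mul (f g : P) : L (f ^ 2 * g) = f * L g := by
  induction f using MvPolynomial.induction_on' with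
  | monomial a c =>
    induction g using MvPolynomial.induction_on' with
    | monomial b d =>
      rw [monomial_pow, monomial_mul, L_monomial, L_monomial, monomial_mul]
      have h1 : c ^ 2 = c := ZMod.pow_card c
      rw [h1]
      congr 2
      ext n
      rw [half_apply, Finsupp.add_apply, Finsupp.add_apply, half_apply, Finsupp.smul_apply,
        smul_eq_mul]
      omega
    | add g g' h h' => rw [mul_add, map_add, h, h', map_add, mul_add]
  | add f f' h h' =>
    have : (f + f') ^ 2 = f ^ 2 + f' ^ 2 := add_pow_char _ _ _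
    rw [this, add_mul, map_add, h, h', add_mul]

/-- shift down of exponent vectors -/
noncomputable def down (m : ℕ →₀ ℕ) : ℕ →₀ ℕ :=
  m.comapDomain Nat.succ (Nat.succ_injective.injOn)

lemma down_apply (m : ℕ →₀ ℕ) (n : ℕ) : down m n = m (n + 1) := rfl

lemma down_add (a b : ℕ →₀ ℕ) : down (a + b) = down a + down b := by
  ext n
  rfl

lemma O_monomial (m : ℕ →₀ ℕ) (a : ZMod 2) : O (monomial m a) = monomial (down m) a := by
  induction m using Finsupp.induction_linear generalizing a with
  | zero =>
    have : down 0 = 0 := by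
      ext n
      rfl
    rw [this]
    exact O_C a
  | add m m' h h' =>
    have e : (monomial (m + m') a : P) = monomial m a * monomial m' 1 := by
      rw [monomial_mul, mul_one]
    rw [e, map_mul, h, h', monomial_mul, mul_one, down_add]
  | single n k =>
    rw [← C_mul_X_pow_eq_monomial, map_mul, map_pow, O_C]
    rcases n with _ | n
    · rw [O_X0, one_pow, mul_one]
      have : down (Finsupp.single 0 k) = 0 := by
        ext n
        rw [down_apply, Finsupp.single_apply, if_neg (by omega), Finsupp.zero_apply]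
      rw [this]
      rfl
    · rw [O_Xs]
      have : down (Finsupp.single (n + 1) k) = Finsupp.single n k := by
        ext i
        rw [down_apply, Finsupp.single_apply, Finsupp.single_apply]
        simp only [Nat.add_right_cancel_iff]
      rw [this, C_mul_X_pow_eq_monomial]

lemma Z_monomial (m : ℕ →₀ ℕ) (a : ZMod 2) :
    Z (monomial m a) = if m 0 = 0 then monomial (down m) a else 0 := by
  by_cases h : m 0 = 0
  · rw [if_pos h]
    have e : (monomial m a : P) = J (monomial (down m) a) := by
      change _ = rename Nat.succ (monomial (down m) a)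
      rw [rename_monomial]
      have e2 : Finsupp.mapDomain Nat.succ (down m) = m := by
        ext n
        rcases n with _ | n
        · rw [h, Finsupp.mapDomain_of_notMem_range]
          rintro ⟨i, hi⟩
          exact absurd hi (Nat.succ_ne_zero i)
        · have := Finsupp.mapDomain_apply Nat.succ_injective (down m) n
          rw [Nat.succ_eq_add_one] at this
          rw [this, down_apply]
      rw [e2]
    rw [e, Z_J]
  · rw [if_neg h]
    have e : (monomial m a : P) = monomial (m - Finsupp.single 0 1) a * X 0 := by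
      rw [X, monomial_mul, mul_one]
      congr 1
      rw [tsub_add_cancel_of_le]
      rw [Finsupp.single_le_iff]
      omega
    rw [e, map_mul, Z_X0, mul_zero]

lemma half_down (m : ℕ →₀ ℕ) : half (down m) = down (half m) := by
  ext n
  rfl

lemma O_L (f : P) : O (L f) = L (O f) := by
  induction f using MvPolynomial.induction_on' with
  | monomial m a => rw [L_monomial, O_monomial, O_monomial, L_monomial, half_down]
  | add f g hf hg => rw [map_add, map_add, hf, hg, map_add, map_add]

lemma Z_L (f : P) : Z (L f) = L (Z f) := by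
  induction f using MvPolynomial.induction_on' with
  | monomial m a =>
    rw [L_monomial, Z_monomial, Z_monomial]
    by_cases h : m 0 = 0
    · have h' : half m 0 = 0 := by
        rw [half_apply, h]
      rw [if_pos h, if_pos h', L_monomial, half_down]
    · have h' : half m 0 ≠ 0 := by
        rw [half_apply]
        omega
      rw [if_neg h, if_neg h', map_zero]
  | add f g hf hg => rw [map_add, map_add, hf, hg, map_add, map_add]

/-- the three places -/
noncomputable def q1 : P →+* P := O
noncomputable def q3 : P →+* P := O.comp Z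
noncomputable def q4 : P →+* P := Z.comp Z

lemma q1_L (f : P) : q1 (L f) = L (q1 f) := O_L f
lemma q3_L (f : P) : q3 (L f) = L (q3 f) := by
  change O (Z (L f)) = L (O (Z f))
  rw [Z_L, O_L]
lemma q4_L (f : P) : q4 (L f) = L (q4 f) := by
  change Z (Z (L f)) = L (Z (Z f))
  rw [Z_L, Z_L]

lemma ker_q1 (f : P) (h : q1 f = 0) : ∃ g, f = (X 0 - 1) * g := by
  obtain ⟨g, hg⟩ := sub_J_O f
  refine ⟨g, ?_⟩
  have h' : O f = 0 := h
  rw [h', map_zero, zero_add] at hg
  exact hg

lemma ker_q3 (f : P) (h : q3 f = 0) : ∃ a b, f = X 0 * a + (X 1 - 1) * b := by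
  obtain ⟨g, hg⟩ := sub_J_Z f
  obtain ⟨g', hg'⟩ := sub_J_O (Z f)
  have h' : O (Z f) = 0 := h
  rw [h', map_zero, zero_add] at hg'
  refine ⟨g, J g', ?_⟩
  rw [hg', map_mul, map_sub, map_one, J_X] at hg
  linear_combination hg

lemma ker_q4 (f : P) (h : q4 f = 0) : ∃ a b, f = X 0 * a + X 1 * b := by
  obtain ⟨g, hg⟩ := sub_J_Z f
  obtain ⟨g', hg'⟩ := sub_J_Z (Z f)
  have h' : Z (Z f) = 0 := h
  rw [h', map_zero, zero_add] at hg'
  refine ⟨g, J g', ?_⟩
  rw [hg', map_mul, J_X] at hg
  linear_combination hg

lemma q1_X0 : q1 (X 0) = 1 := O_X0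
lemma q3_X0 : q3 (X 0) = 0 := by
  change O (Z (X 0)) = 0
  rw [Z_X0, map_zero]
lemma q4_X0 : q4 (X 0) = 0 := by
  change Z (Z (X 0)) = 0
  rw [Z_X0, map_zero]
lemma q1_X1 : q1 (X 1) = X 0 := O_Xs 0
lemma q3_X1 : q3 (X 1) = 1 := by
  change O (Z (X 1)) = 1
  rw [Z_Xs 0, O_X0]
lemma q4_X1 : q4 (X 1) = 0 := by
  change Z (Z (X 1)) = 0
  rw [Z_Xs 0, Z_X0]

end Pool.Agent.H215R3.DF
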