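import Mathlib

/-!
# Noetherianity of a subring sharing a large ideal with a Noetherian overring
-/

set_option autoImplicit false

namespace Pool.Agent.H215R3.DF

variable {C : Type} [CommRing C] [IsNoetherianRing C] (A : Subring C)

omit [IsNoetherianRing C] in
lemma smul_eq {B : Type} [CommRing B] (a : C →+* B) (h : ∀ c : C, ∃ r : A, a r.1 = a c) (c : C)
    (x : C ⧸ RingHom.ker a) : ∃ r : A, c • x = r • x := by
  obtain ⟨r, hr⟩ := h c
  refine ⟨r, ?_⟩
  obtain ⟨y, rfl⟩ := Ideal.Quotient.mk_surjective x
  change Ideal.Quotient.mk _ (c * y) = Ideal.Quotient.mk _ (r.1 * y)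
  rw [Ideal.Quotient.eq, ← sub_mul]
  apply Ideal.mul_mem_right
  rw [RingHom.mem_ker, map_sub, hr, sub_self]

/-- an `A`-submodule is a `C`-submodule -/
def toC {B : Type} [CommRing B] (a : C →+* B) (h : ∀ c : C, ∃ r : A, a r.1 = a c)
    (N : Submodule A (C ⧸ RingHom.ker a)) : Submodule C (C ⧸ RingHom.ker a) where
  carrier := N
  add_mem' := N.add_mem
  zero_mem' := N.zero_mem
  smul_mem' := by
    intro c x hx
    obtain ⟨r, hr⟩ := smul_eq A a h c x
    rw [hr]
    exact N.smul_mem r hx

lemma noeth_quot {B : Type} [CommRing B] (a : C →+* B) (h : ∀ c : C, ∃ r : A, a r.1 = a c) :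
    IsNoetherian A (C ⧸ RingHom.ker a) := by
  constructor
  intro N
  obtain ⟨X, hX⟩ := IsNoetherian.noetherian (toC A a h N)
  refine ⟨X, le_antisymm ?_ ?_⟩
  · rw [Submodule.span_le]
    intro x hx
    have : x ∈ toC A a h N := by
      rw [← hX]
      exact Submodule.subset_span hx
    exact this
  · intro x hx
    have h1 : x ∈ toC A a h N := hx
    rw [← hX] at h1
    have h2 : Submodule.span C (X : Set (C ⧸ RingHom.ker a)) ≤ toC A a h (Submodule.span A X) := by
      rw [Submodule.span_le]
      intro y hy
      exact Submodule.subset_span hy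
    exact h2 h1

omit [IsNoetherianRing C] in
lemma noeth_inf (I I' : Ideal C) (h : IsNoetherian A (C ⧸ I)) (h' : IsNoetherian A (C ⧸ I')) :
    IsNoetherian A (C ⧸ (I ⊓ I')) := by
  let f : (C ⧸ (I ⊓ I')) →ₗ[A] (C ⧸ I) × (C ⧸ I') :=
    ((Submodule.mapQ (I ⊓ I') I LinearMap.id inf_le_left).prod
      (Submodule.mapQ (I ⊓ I') I' LinearMap.id inf_le_right)).restrictScalars A
  refine isNoetherian_of_injective f ?_
  rw [← LinearMap.ker_eq_bot, eq_bot_iff]
  intro x hx
  obtain ⟨y, rfl⟩ := Ideal.Quotient.mk_surjective x
  have h1 : ((Ideal.Quotient.mk I y, Ideal.Quotient.mk I' y) : (C ⧸ I) × (C ⧸ I')) = 0 := hx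
  rw [Prod.mk_eq_zero, Ideal.Quotient.eq_zero_iff_mem, Ideal.Quotient.eq_zero_iff_mem] at h1
  rw [Submodule.mem_bot, Ideal.Quotient.eq_zero_iff_mem]
  exact h1

theorem noeth_of (J : Ideal C) (hJ : ∀ x ∈ J, x ∈ A) [Module.Finite A C]
    (h : IsNoetherian A (C ⧸ J)) : IsNoetherian A C := by
  classical
  constructor
  intro T
  set T' : Ideal C := Ideal.span (T : Set C) with hT'
  have h1 : ∀ x ∈ J * T', x ∈ T := by
    intro x hx
    induction hx using Submodule.mul_induction_on' with
    | mem_mul_mem j hj t ht =>
      unfold Ideal.span at hT'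
      rw [hT'] at ht
      induction ht using Submodule.span_induction generalizing j with
      | mem t ht => exact T.smul_mem ⟨j, hJ j hj⟩ ht
      | zero =>
        rw [mul_zero]
        exact T.zero_mem
      | add a b _ _ ha hb =>
        rw [mul_add]
        exact T.add_mem (ha j hj) (hb j hj)
      | smul c t _ ht =>
        rw [smul_eq_mul, ← mul_assoc]
        exact ht _ (J.mul_mem_right c hj)
    | add x _ y _ hx hy => exact T.add_mem hx hy
  obtain ⟨X, hX⟩ := (isNoetherianRing_iff_ideal_fg C).1 inferInstance T'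
  have h2 : ((J * T').restrictScalars A).FG := by
    have : Module.Finite C (J * T' : Ideal C) :=
      Module.Finite.iff_fg.2 ((isNoetherianRing_iff_ideal_fg C).1 inferInstance _)
    have h3 : Module.Finite A (J * T' : Ideal C) := Module.Finite.trans C _
    exact Module.Finite.iff_fg.1 h3
  let f : C →ₗ[A] C ⧸ (J * T') := (Submodule.mkQ (J * T')).restrictScalars A
  refine Submodule.fg_of_fg_map_of_fg_inf_ker f ?_ ?_
  · -- the image is contained in a Noetherian module
    let g : X → ((C ⧸ J) →ₗ[C] C ⧸ (J * T')) := fun t =>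
      Submodule.liftQ J (LinearMap.toSpanSingleton C (C ⧸ (J * T')) (Ideal.Quotient.mk _ t.1)) (by
        intro j hj
        rw [LinearMap.mem_ker, LinearMap.toSpanSingleton_apply]
        change Ideal.Quotient.mk _ (j * t.1) = 0
        rw [Ideal.Quotient.eq_zero_iff_mem]
        apply Ideal.mul_mem_mul hj
        rw [← hX]
        exact Submodule.subset_span t.2)
    let G : (X → (C ⧸ J)) →ₗ[C] C ⧸ (J * T') := LinearMap.lsum C (fun _ => C ⧸ J) C g
    have hG : IsNoetherian A (LinearMap.range (G.restrictScalars A)) := by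
      refine isNoetherian_of_surjective (G.restrictScalars A).rangeRestrict ?_
      exact LinearMap.range_rangeRestrict _
    have h4 : T.map f ≤ LinearMap.range (G.restrictScalars A) := by
      rintro _ ⟨t, ht, rfl⟩
      have h5 : t ∈ T' := Ideal.subset_span ht
      rw [← hX] at h5
      have h6 : ∀ y ∈ Submodule.span C (X : Set C),
          (Ideal.Quotient.mk (J * T') y : C ⧸ (J * T')) ∈ LinearMap.range G := by
        intro y hy
        induction hy using Submodule.span_induction with
        | mem y hy =>
          refine ⟨Pi.single (⟨y, hy⟩ : X) 1, ?_⟩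
          simp only [G]
          rw [LinearMap.lsum_piSingle]
          change Submodule.liftQ J _ _ (Submodule.Quotient.mk 1) = _
          rw [Submodule.liftQ_apply, LinearMap.toSpanSingleton_apply, one_smul]
        | zero => exact Submodule.zero_mem _
        | add a b _ _ ha hb => exact Submodule.add_mem _ ha hb
        | smul c t _ ht => exact Submodule.smul_mem _ c ht
      exact h6 t h5
    have h7 := isNoetherian_submodule.1 hG _ h4
    exact h7
  · have h8 : T ⊓ LinearMap.ker f = (J * T').restrictScalars A := by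
      ext x
      constructor
      · rintro ⟨_, hx⟩
        have : Ideal.Quotient.mk (J * T') x = 0 := hx
        rw [Ideal.Quotient.eq_zero_iff_mem] at this
        exact this
      · intro hx
        refine ⟨h1 x hx, ?_⟩
        change Ideal.Quotient.mk (J * T') x = 0
        rw [Ideal.Quotient.eq_zero_iff_mem]
        exact hx
    rw [h8]
    exact h2

theorem noethRing_of (J : Ideal C) (hJ : ∀ x ∈ J, x ∈ A) [Module.Finite A C]
    (h : IsNoetherian A (C ⧸ J)) : IsNoetherianRing A := by
  have h1 := noeth_of A J hJ h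
  let f : A →ₗ[A] C := Algebra.linearMap A C
  exact isNoetherian_of_injective f Subtype.val_injective

end Pool.Agent.H215R3.DF
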