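import Pool.Agent.H215R3.DF.Base

/-!
# The semilocal ring `Ω`
-/

set_option autoImplicit false

namespace Pool.Agent.H215R3.DF

open MvPolynomial

/-- the multiplicative set -/
noncomputable def S : Submonoid P where
  carrier := {f | q1 f ≠ 0 ∧ q3 f ≠ 0 ∧ q4 f ≠ 0}
  one_mem' := by
    refine ⟨?_, ?_, ?_⟩ <;> rw [map_one] <;> exact one_ne_zero
  mul_mem' := by
    rintro a b ⟨h1, h2, h3⟩ ⟨h4, h5, h6⟩
    refine ⟨?_, ?_, ?_⟩ <;> rw [map_mul]
    · exact mul_ne_zero h1 h4
    · exact mul_ne_zero h2 h5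
    · exact mul_ne_zero h3 h6

lemma mem_S (f : P) : f ∈ S ↔ q1 f ≠ 0 ∧ q3 f ≠ 0 ∧ q4 f ≠ 0 := Iff.rfl

lemma S_le : S ≤ nonZeroDivisors P := by
  intro f hf
  apply mem_nonZeroDivisors_of_ne_zero
  rintro rfl
  exact hf.1 (map_zero _)

abbrev Om := Localization S
abbrev K := FractionRing P

instance : IsDomain Om := IsLocalization.isDomain_localization S_le

lemma inj : Function.Injective (algebraMap P Om) := IsLocalization.injective Om S_le

lemma unitS (f : P) (hf : f ∈ S) : IsUnit (algebraMap P Om f) :=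
  IsLocalization.map_units Om ⟨f, hf⟩

lemma injK : Function.Injective (algebraMap P K) := IsFractionRing.injective P K

/-- extension of a specialisation -/
noncomputable def ext (q : P →+* P) (hq : ∀ f ∈ S, q f ≠ 0) : Om →+* K :=
  IsLocalization.lift (M := S) (g := (algebraMap P K).comp q) (by
    intro y
    rw [isUnit_iff_ne_zero]
    intro h
    exact hq y.1 y.2 (injK (by rw [map_zero]; exact h)))

lemma ext_alg (q : P →+* P) (hq : ∀ f ∈ S, q f ≠ 0) (f : P) :
    ext q hq (algebraMap P Om f) = algebraMap P K (q f) :=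
  IsLocalization.lift_eq _ f

noncomputable def e1 : Om →+* K := ext q1 (fun _ h => h.1)
noncomputable def e3 : Om →+* K := ext q3 (fun _ h => h.2.1)
noncomputable def e4 : Om →+* K := ext q4 (fun _ h => h.2.2)

lemma Z_ne (f : P) (h : f ∈ S) : Z f ≠ 0 := by
  intro h0
  apply h.2.2
  change Z (Z f) = 0
  rw [h0, map_zero]

noncomputable def e0 : Om →+* K := ext Z Z_ne

lemma e1_alg (f : P) : e1 (algebraMap P Om f) = algebraMap P K (q1 f) := ext_alg _ _ f
lemma e3_alg (f : P) : e3 (algebraMap P Om f) = algebraMap P K (q3 f) := ext_alg _ _ f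
lemma e4_alg (f : P) : e4 (algebraMap P Om f) = algebraMap P K (q4 f) := ext_alg _ _ f
lemma e0_alg (f : P) : e0 (algebraMap P Om f) = algebraMap P K (Z f) := ext_alg _ _ f

/-- every element is a fraction -/
lemma exists_frac (z : Om) : ∃ a f : P, f ∈ S ∧ z * algebraMap P Om f = algebraMap P Om a := by
  obtain ⟨⟨a, f⟩, h⟩ := IsLocalization.surj S z
  exact ⟨a, f.1, f.2, h⟩

lemma alg_ne (f : P) (hf : f ∈ S) : algebraMap P Om f ≠ 0 := (unitS f hf).ne_zero

lemma K_ne {f : P} (hf : f ≠ 0) : algebraMap P K f ≠ 0 := by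
  intro h
  exact hf (injK (by rw [h, map_zero]))

/-- coordinates on `Ω` -/
noncomputable def w : Om := algebraMap P Om (X 0)
noncomputable def s : Om := algebraMap P Om (X 1)

lemma e1_w : e1 w = 1 := by rw [w, e1_alg, q1_X0, map_one]
lemma e3_w : e3 w = 0 := by rw [w, e3_alg, q3_X0, map_zero]
lemma e4_w : e4 w = 0 := by rw [w, e4_alg, q4_X0, map_zero]
lemma e0_w : e0 w = 0 := by rw [w, e0_alg, Z_X0, map_zero]
lemma e3_s : e3 s = 1 := by rw [s, e3_alg, q3_X1, map_one]
lemma e4_s : e4 s = 0 := by rw [s, e4_alg, q4_X1, map_zero]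
lemma e0_s : e0 s = algebraMap P K (X 0) := by rw [s, e0_alg, Z_Xs 0]

lemma JJ_mem (f : P) (hf : f ≠ 0) : J (J f) ∈ S := by
  have h1 : q1 (J (J f)) = J f := O_J _
  have h3 : q3 (J (J f)) = f := by
    change O (Z (J (J f))) = f
    rw [Z_J, O_J]
  have h4 : q4 (J (J f)) = f := by
    change Z (Z (J (J f))) = f
    rw [Z_J, Z_J]
  rw [mem_S, h1, h3, h4]
  refine ⟨?_, hf, hf⟩
  intro h
  apply hf
  rw [← O_J f, h, map_zero]

/-- constants -/
noncomputable def kap : K →+* Om :=
  IsLocalization.lift (M := nonZeroDivisors P) (g := (algebraMap P Om).comp (J.comp J)) (by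
    intro y
    exact unitS _ (JJ_mem y.1 (nonZeroDivisors.ne_zero y.2)))

lemma kap_alg (f : P) : kap (algebraMap P K f) = algebraMap P Om (J (J f)) :=
  IsLocalization.lift_eq _ f

lemma e3_kap (u : K) : e3 (kap u) = u := by
  have : (e3.comp kap) = RingHom.id K := by
    apply IsLocalization.ringHom_ext (nonZeroDivisors P)
    apply MvPolynomial.ringHom_ext
    · intro a
      simp only [RingHom.comp_apply, RingHom.id_apply]
      rw [kap_alg, J_C, J_C]
      first
        | rw [e3_alg]
          change algebraMap P K (O (Z (C a))) = _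
          rw [Z_C, O_C]
        | rw [e4_alg]
          change algebraMap P K (Z (Z (C a))) = _
          rw [Z_C, Z_C]
    · intro n
      simp only [RingHom.comp_apply, RingHom.id_apply]
      rw [kap_alg, e3_alg]
      change algebraMap P K (O (Z (J (J (X n))))) = _
      rw [Z_J, O_J]
  exact congrArg (fun φ : K →+* K => φ u) this

lemma e4_kap (u : K) : e4 (kap u) = u := by
  have : (e4.comp kap) = RingHom.id K := by
    apply IsLocalization.ringHom_ext (nonZeroDivisors P)
    apply MvPolynomial.ringHom_ext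
    · intro a
      simp only [RingHom.comp_apply, RingHom.id_apply]
      rw [kap_alg, J_C, J_C]
      first
        | rw [e3_alg]
          change algebraMap P K (O (Z (C a))) = _
          rw [Z_C, O_C]
        | rw [e4_alg]
          change algebraMap P K (Z (Z (C a))) = _
          rw [Z_C, Z_C]
    · intro n
      simp only [RingHom.comp_apply, RingHom.id_apply]
      rw [kap_alg, e4_alg]
      change algebraMap P K (Z (Z (J (J (X n))))) = _
      rw [Z_J, Z_J]
  exact congrArg (fun φ : K →+* K => φ u) this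

/-- an element with prescribed value at the first place and value zero at the others -/
lemma exists_e1 (u : K) : ∃ z : Om, e1 z = u ∧ e3 z = 0 ∧ e4 z = 0 := by
  obtain ⟨a, b, hb, hab⟩ := IsFractionRing.div_surjective (A := P) u
  have hb0 : b ≠ 0 := nonZeroDivisors.ne_zero hb
  set f : P := J b * X 0 + (1 - X 0) with hf
  have h1 : q1 f = b := by
    rw [hf, map_add, map_mul, map_sub, map_one, q1_X0]
    change O (J b) * 1 + (1 - 1) = b
    rw [O_J]
    ring
  have h3 : q3 f = 1 := by
    rw [hf, map_add, map_mul, map_sub, map_one, q3_X0]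
    ring
  have h4 : q4 f = 1 := by
    rw [hf, map_add, map_mul, map_sub, map_one, q4_X0]
    ring
  have hfS : f ∈ S := by
    rw [mem_S, h1, h3, h4]
    exact ⟨hb0, one_ne_zero, one_ne_zero⟩
  obtain ⟨v, hv⟩ := unitS f hfS
  refine ⟨algebraMap P Om (J a) * w * ↑v⁻¹, ?_, ?_, ?_⟩
  · rw [map_mul, map_mul, e1_w, mul_one, e1_alg]
    change algebraMap P K (O (J a)) * _ = u
    rw [O_J]
    have h5 : e1 ↑v * e1 ↑v⁻¹ = 1 := by
      rw [← map_mul, Units.mul_inv, map_one]
    rw [hv, e1_alg, h1] at h5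
    rw [← hab]
    have := K_ne hb0
    field_simp
    linear_combination (algebraMap P K a) * h5
  · rw [map_mul, map_mul, e3_w, mul_zero, zero_mul]
  · rw [map_mul, map_mul, e4_w, mul_zero, zero_mul]

lemma exists_e (u v t : K) : ∃ z : Om, e1 z = u ∧ e3 z = v ∧ e4 z = t := by
  obtain ⟨z, h1, h3, h4⟩ := exists_e1 u
  refine ⟨z + (1 - w) * s * kap v + (1 - w) * (1 - s) * kap t, ?_, ?_, ?_⟩
  · simp only [map_add, map_mul, map_sub, map_one, h1, e1_w]
    ring
  · simp only [map_add, map_mul, map_sub, map_one, h3, e3_w, e3_s, e3_kap]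
    ring
  · simp only [map_add, map_mul, map_sub, map_one, h4, e4_w, e4_s, e4_kap]
    ring

lemma isUnit_Om (z : Om) (h1 : e1 z ≠ 0) (h3 : e3 z ≠ 0) (h4 : e4 z ≠ 0) : IsUnit z := by
  obtain ⟨a, f, hf, h⟩ := exists_frac z
  have ha : a ∈ S := by
    refine ⟨?_, ?_, ?_⟩
    · intro h0
      have := congrArg e1 h
      rw [map_mul, e1_alg, e1_alg, h0, map_zero] at this
      rcases mul_eq_zero.1 this with h5 | h5
      · exact h1 h5
      · exact K_ne hf.1 h5
    · intro h0
      have := congrArg e3 h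
      rw [map_mul, e3_alg, e3_alg, h0, map_zero] at this
      rcases mul_eq_zero.1 this with h5 | h5
      · exact h3 h5
      · exact K_ne hf.2.1 h5
    · intro h0
      have := congrArg e4 h
      rw [map_mul, e4_alg, e4_alg, h0, map_zero] at this
      rcases mul_eq_zero.1 this with h5 | h5
      · exact h4 h5
      · exact K_ne hf.2.2 h5
  have := unitS a ha
  rw [← h] at this
  exact isUnit_of_mul_isUnit_left this

lemma ker_e1 (z : Om) (h : e1 z = 0) : ∃ b, z = (1 - w) * b := by
  obtain ⟨a, f, hf, h'⟩ := exists_frac z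
  have h2 : q1 a = 0 := by
    apply injK
    rw [← e1_alg, ← h', map_mul, h, zero_mul, map_zero]
  obtain ⟨g, hg⟩ := ker_q1 a h2
  obtain ⟨v, hv⟩ := unitS f hf
  refine ⟨- algebraMap P Om g * ↑v⁻¹, ?_⟩
  have h3 : z = algebraMap P Om a * ↑v⁻¹ := by
    rw [← h', ← hv, mul_assoc, Units.mul_inv, mul_one]
  rw [h3, hg, map_mul, map_sub, map_one, w]
  ring

lemma ker_e3 (z : Om) (h : e3 z = 0) : ∃ b c, z = w * b + (s - 1) * c := by
  obtain ⟨a, f, hf, h'⟩ := exists_frac z
  have h2 : q3 a = 0 := by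
    apply injK
    rw [← e3_alg, ← h', map_mul, h, zero_mul, map_zero]
  obtain ⟨g, g', hg⟩ := ker_q3 a h2
  obtain ⟨v, hv⟩ := unitS f hf
  refine ⟨algebraMap P Om g * ↑v⁻¹, algebraMap P Om g' * ↑v⁻¹, ?_⟩
  have h3 : z = algebraMap P Om a * ↑v⁻¹ := by
    rw [← h', ← hv, mul_assoc, Units.mul_inv, mul_one]
  rw [h3, hg, map_add, map_mul, map_mul, map_sub, map_one, w, s]
  ring

lemma ker_e4 (z : Om) (h : e4 z = 0) : ∃ b c, z = w * b + s * c := by
  obtain ⟨a, f, hf, h'⟩ := exists_frac z
  have h2 : q4 a = 0 := by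
    apply injK
    rw [← e4_alg, ← h', map_mul, h, zero_mul, map_zero]
  obtain ⟨g, g', hg⟩ := ker_q4 a h2
  obtain ⟨v, hv⟩ := unitS f hf
  refine ⟨algebraMap P Om g * ↑v⁻¹, algebraMap P Om g' * ↑v⁻¹, ?_⟩
  have h3 : z = algebraMap P Om a * ↑v⁻¹ := by
    rw [← h', ← hv, mul_assoc, Units.mul_inv, mul_one]
  rw [h3, hg, map_add, map_mul, map_mul, w, s]
  ring

lemma e4_of_e0 (z : Om) (h : e0 z = 0) : e4 z = 0 := by
  obtain ⟨a, f, hf, h'⟩ := exists_frac z
  have h2 : Z a = 0 := by
    apply injK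
    rw [← e0_alg, ← h', map_mul, h, zero_mul, map_zero]
  have h3 : q4 a = 0 := by
    change Z (Z a) = 0
    rw [h2, map_zero]
  have h4 := congrArg e4 h'
  rw [map_mul, e4_alg, e4_alg, h3, map_zero] at h4
  rcases mul_eq_zero.1 h4 with h5 | h5
  · exact h5
  · exact absurd h5 (K_ne hf.2.2)

/-! ### Noetherianity -/

open Polynomial in
/-- the map from `K[s][w]` -/
noncomputable def iot : Polynomial (Polynomial K) →+* Om :=
  eval₂RingHom (eval₂RingHom kap s) w

lemma alg_mem_range (a : P) : ∃ b, iot b = algebraMap P Om a := by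
  induction a using MvPolynomial.induction_on with
  | C c =>
    refine ⟨((c.val : ℕ) : Polynomial (Polynomial K)), ?_⟩
    have : (MvPolynomial.C c : P) = ((c.val : ℕ) : P) := by
      rw [← map_natCast (MvPolynomial.C : ZMod 2 →+* P), ZMod.natCast_zmod_val]
    rw [this, map_natCast, map_natCast]
  | add f g hf hg =>
    obtain ⟨b, hb⟩ := hf
    obtain ⟨c, hc⟩ := hg
    exact ⟨b + c, by rw [map_add, map_add, hb, hc]⟩
  | mul_X f n hf =>
    obtain ⟨b, hb⟩ := hf
    have key : ∃ c, iot c = algebraMap P Om (MvPolynomial.X n) := by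
      rcases n with _ | _ | n
      · exact ⟨Polynomial.X, by simp [iot, w]⟩
      · exact ⟨Polynomial.C Polynomial.X, by simp [iot, s]⟩
      · refine ⟨Polynomial.C (Polynomial.C (algebraMap P K (MvPolynomial.X n))), ?_⟩
        rw [iot, Polynomial.coe_eval₂RingHom, Polynomial.eval₂_C, Polynomial.coe_eval₂RingHom,
          Polynomial.eval₂_C, kap_alg, J_X, J_X]
    obtain ⟨c, hc⟩ := key
    exact ⟨b * c, by rw [map_mul, map_mul, hb, hc]⟩

instance : IsNoetherianRing Om := by
  have h1 : WellFoundedGT (Ideal (Polynomial (Polynomial K))) :=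
    (isNoetherian_iff').1 inferInstance
  have key : ∀ I : Ideal Om, (I.comap iot).map iot = I := by
    intro I
    apply le_antisymm Ideal.map_comap_le
    intro z hz
    obtain ⟨a, f, hf, h⟩ := exists_frac z
    obtain ⟨b, hb⟩ := alg_mem_range a
    obtain ⟨v, hv⟩ := unitS f hf
    have h3 : z = iot b * ↑v⁻¹ := by
      rw [hb, ← h, ← hv, mul_assoc, Units.mul_inv, mul_one]
    rw [h3]
    apply Ideal.mul_mem_right
    apply Ideal.mem_map_of_mem
    rw [Ideal.mem_comap, hb, ← h]
    exact I.mul_mem_right _ hz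
  have h2 : WellFoundedGT (Ideal Om) := by
    let F : Ideal Om ↪o Ideal (Polynomial (Polynomial K)) := OrderEmbedding.ofMapLEIff
      (fun I => I.comap iot) (by
        intro I I'
        constructor
        · intro h
          rw [← key I, ← key I']
          exact Ideal.map_mono h
        · intro h
          exact Ideal.comap_mono h)
    exact F.wellFoundedGT
  exact (isNoetherian_iff').2 h2

end Pool.Agent.H215R3.DF
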