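import Pool.Agent.H215R3.DF.Quot

/-!
# The system of parameters, the dimension of `R`, and the ideal that is not Frobenius closed
-/

set_option autoImplicit false

namespace Pool.Agent.H215R3.DF

open PowerSeries

lemma mem_of (h : CC) (x y : PowerSeries K) (h1 : a1 h = x) (h3 : a3 h = x) (h2 : a2 h = y)
    (h4 : a4 h = y) : h ∈ RR := by
  rw [mem_RR, h1, h2, h3, h4]
  exact ⟨rfl, rfl⟩

lemma a1X : a1 X = X := a_X.1
lemma a2X : a2 X = X := a_X.2.1
lemma a3X : a3 X = X := a_X.2.2.1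
lemma a4X : a4 X = X := a_X.2.2.2
lemma a1V : a1 V = 0 := a_V.1
lemma a2V : a2 V = X ^ 2 := a_V.2.1
lemma a3V : a3 V = 0 := a_V.2.2.1
lemma a4V : a4 V = 0 := a_V.2.2.2

noncomputable def W : CC := sc w
noncomputable def T : CC := sc s

lemma a1W : a1 W = 1 := by rw [W, a1_sc, e1_w, map_one]
lemma a2W : a2 W = 1 := by rw [W, a2_sc, e1_w, map_one]
lemma a3W : a3 W = 0 := by rw [W, a3_sc, e3_w, map_zero]
lemma a4W : a4 W = 0 := by rw [W, a4_sc, e4_w, map_zero]
lemma a3T : a3 T = 1 := by rw [T, a3_sc, e3_s, map_one]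
lemma a4T : a4 T = 0 := by rw [T, a4_sc, e4_s, map_zero]

noncomputable def g1 : CC := (1 - W) * V
noncomputable def g2 : CC := W * V + (1 - W) * (1 - T) * X ^ 2 + (1 - W) * T * (T - 1)
noncomputable def g3 : CC := X ^ 2
noncomputable def g4 : CC := W * (1 - W)
noncomputable def gr : CC := (1 - W) ^ 2 * T * X * V
noncomputable def gc : CC := W ^ 2 * (X ^ 2 - V) + (1 - W) ^ 2 * T ^ 2 * X ^ 2
noncomputable def gd : CC := (X ^ 2 - V) * V ^ 2

lemma identity : gr ^ 2 = gc * g1 ^ 2 - gd * g4 ^ 2 := by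
  unfold gr gc g1 gd g4
  ring

lemma g1_mem : g1 ∈ RR := by
  refine mem_of _ 0 0 ?_ ?_ ?_ ?_ <;>
    simp only [g1, map_mul, map_sub, map_one, a1W, a2W, a3W, a4W, a1V, a2V, a3V, a4V] <;> ring

lemma g2_mem : g2 ∈ RR := by
  refine mem_of _ 0 (X ^ 2) ?_ ?_ ?_ ?_ <;>
    simp only [g2, map_add, map_mul, map_sub, map_pow, map_one, a1W, a2W, a3W, a4W, a1V, a2V, a3V,
      a4V, a1X, a2X, a3X, a4X, a3T, a4T] <;> ring

lemma g3_mem : g3 ∈ RR := by
  refine mem_of _ (X ^ 2) (X ^ 2) ?_ ?_ ?_ ?_ <;>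
    simp only [g3, map_pow, a1X, a2X, a3X, a4X]

lemma g4_mem : g4 ∈ RR := by
  refine mem_of _ 0 0 ?_ ?_ ?_ ?_ <;>
    simp only [g4, map_mul, map_sub, map_one, a1W, a2W, a3W, a4W] <;> ring

lemma gr_mem : gr ∈ RR := by
  refine mem_of _ 0 0 ?_ ?_ ?_ ?_ <;>
    simp only [gr, map_mul, map_sub, map_pow, map_one, a1W, a2W, a3W, a4W, a1V, a2V, a3V,
      a4V, a1X, a2X, a3X, a4X] <;> ring

lemma gc_mem : gc ∈ RR := by
  refine mem_of _ (X ^ 2) 0 ?_ ?_ ?_ ?_ <;>
    simp only [gc, map_add, map_mul, map_sub, map_pow, map_one, a1W, a2W, a3W, a4W, a1V, a2V, a3V,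
      a4V, a1X, a2X, a3X, a4X, a3T, a4T] <;> ring

lemma gd_mem : gd ∈ RR := by
  refine mem_of _ 0 0 ?_ ?_ ?_ ?_ <;>
    simp only [gd, map_mul, map_sub, map_pow, a1V, a2V, a3V, a4V, a1X, a2X, a3X, a4X] <;> ring

/-- the parameters -/
noncomputable def yy : Fin 4 → RR := ![⟨g1, g1_mem⟩, ⟨g2, g2_mem⟩, ⟨g3, g3_mem⟩, ⟨g4, g4_mem⟩]

noncomputable def rr : RR := ⟨gr, gr_mem⟩

lemma yy_mem (i : Fin 4) : yy i ∈ Ideal.span (Set.range yy) := Ideal.subset_span ⟨i, rfl⟩

lemma rr_sq : rr ^ (2 ^ 1) ∈ Ideal.span ((fun a => a ^ (2 ^ 1)) ''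
    ((Ideal.span (Set.range yy) : Ideal RR) : Set RR)) := by
  have h : rr ^ (2 ^ 1) = ⟨gc, gc_mem⟩ * (yy 0) ^ (2 ^ 1) - ⟨gd, gd_mem⟩ * (yy 3) ^ (2 ^ 1) :=
    Subtype.ext identity
  rw [h]
  exact Ideal.sub_mem _ (Ideal.mul_mem_left _ _ (Ideal.subset_span ⟨_, yy_mem 0, rfl⟩))
    (Ideal.mul_mem_left _ _ (Ideal.subset_span ⟨_, yy_mem 3, rfl⟩))

/-- a coefficient -/
noncomputable def k11 (h : CC) : Om := coeff 1 (coeff 1 h)
noncomputable def k10 (h : CC) : Om := constantCoeff (coeff 1 h)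

lemma k11_add (h h' : CC) : k11 (h + h') = k11 h + k11 h' := by
  rw [k11, map_add, map_add, k11, k11]

lemma k11_sc (z : Om) (h : CC) : k11 (sc z * h) = z * k11 h := by
  rw [k11, sc_apply, coeff_C_mul, coeff_C_mul, k11]

lemma k11_V (h : CC) : k11 (V * h) = k10 h := by
  have h1 := coeff_succ_X_mul 0 (coeff 1 h)
  rw [zero_add] at h1
  rw [k11, V, coeff_C_mul, h1, k10, coeff_zero_eq_constantCoeff_apply]

lemma k11_X2 (h : CC) : k11 (X ^ 2 * h) = 0 := by
  rw [k11, coeff_X_pow_mul', if_neg (by norm_num), map_zero]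

lemma rr_not_mem : rr ∉ Ideal.span (Set.range yy) := by
  intro h
  rw [Ideal.mem_span_range_iff_exists_fun] at h
  obtain ⟨a, ha⟩ := h
  rw [Fin.sum_univ_four] at ha
  have h1 : (a 0).1 * g1 + (a 1).1 * g2 + (a 2).1 * g3 + (a 3).1 * g4 = gr :=
    congrArg Subtype.val ha
  have h2 : (V * (sc (1 - w) * (a 0).1)) + (V * (sc w * (a 1).1)) +
      (X ^ 2 * ((sc ((1 - w) * (1 - s))) * (a 1).1 + (a 2).1)) +
      (sc ((1 - w) * s * (s - 1)) * (a 1).1) + (sc (w * (1 - w)) * (a 3).1) =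
      sc ((1 - w) ^ 2 * s) * (V * X) := by
    simp only [g1, g2, g3, g4, gr, W, T] at h1
    simp only [map_mul, map_sub, map_pow, map_one]
    linear_combination h1
  have h3 := congrArg k11 h2
  have e10 : ∀ (z : Om) (h : CC), k10 (sc z * h) = z * k10 h := by
    intro z h
    rw [k10, sc_apply, coeff_C_mul, map_mul, constantCoeff_C, k10]
  have e10X : k10 (X : CC) = 1 := by
    rw [k10, coeff_one_X, map_one]
  rw [k11_add, k11_add, k11_add, k11_add, k11_V, k11_V, k11_X2, k11_sc, k11_sc, k11_sc, k11_V,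
    e10, e10, e10X] at h3
  have h4 := congrArg e3 h3
  have h5 := congrArg e4 h3
  simp only [map_add, map_mul, map_sub, map_pow, map_one, e3_w, e3_s, map_zero] at h4
  simp only [map_add, map_mul, map_sub, map_pow, map_one, e4_w, e4_s, map_zero] at h5
  have hR := (mem_RR (a 0).1).1 (a 0).2
  have h6 := congrArg (coeff 1) hR.1
  have h7 := congrArg (coeff 1) hR.2
  rw [coeff_a1, coeff_a3] at h6
  rw [coeff_one_a2, coeff_a4] at h7
  have h8 : e3 (k10 (a 0).1) = e4 (k10 (a 0).1) := h6.symm.trans h7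
  have h9 : (1 : K) = 0 := by
    linear_combination h8 - h4 + h5
  exact one_ne_zero h9

/-! ### The radical of the parameter ideal -/

lemma split_CC (h : CC) : ∃ b c : CC, h = X * b + V * c + sc (c0 h) := by
  have h1 := PowerSeries.eq_X_mul_shift_add_const h
  have h2 := PowerSeries.eq_X_mul_shift_add_const (constantCoeff h)
  refine ⟨PowerSeries.mk fun p => coeff (p + 1) h,
    C (PowerSeries.mk fun p => coeff (p + 1) (constantCoeff h)), ?_⟩
  rw [V, ← map_mul, sc_apply, add_assoc, ← map_add, c0_apply, ← h2]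
  exact h1

lemma max_le_of (Q : Ideal RR) (hQ : Q.IsPrime) (h : Ideal.span (Set.range yy) ≤ Q) :
    IsLocalRing.maximalIdeal RR ≤ Q := by
  obtain ⟨Q', _, hQ', hcomap⟩ := Ideal.exists_ideal_over_prime_of_isIntegral (S := CC) Q ⊥ (by
    intro x hx
    rw [Ideal.mem_comap, Ideal.mem_bot] at hx
    have : x = 0 := Subtype.ext hx
    rw [this]
    exact Q.zero_mem)
  have hm : ∀ i, (yy i).1 ∈ Q' := by
    intro i
    have : yy i ∈ Q := h (yy_mem i)
    rw [← hcomap] at this
    exact this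
  have m1 : g1 ∈ Q' := hm 0
  have m2 : g2 ∈ Q' := hm 1
  have m3 : g3 ∈ Q' := hm 2
  have m4 : g4 ∈ Q' := hm 3
  have mX : (X : CC) ∈ Q' := hQ'.mem_of_pow_mem 2 m3
  have key : V ∈ Q' → (∀ z : Om, (e1 z = 0 ∧ e3 z = 0 ∧ e4 z = 0) → sc z ∈ Q') →
      IsLocalRing.maximalIdeal RR ≤ Q := by
    intro mV hz x hx
    rw [mem_max] at hx
    rw [← hcomap]
    change x.1 ∈ Q'
    obtain ⟨b, c, hbc⟩ := split_CC x.1
    rw [hbc]
    refine Q'.add_mem (Q'.add_mem (Q'.mul_mem_right _ mX) (Q'.mul_mem_right _ mV)) (hz _ ?_)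
    exact ⟨hx, by rw [e13, hx], by rw [e14, hx]⟩
  rcases hQ'.mem_or_mem m4 with hW | hW
  · have mV : V ∈ Q' := by
      have : V = g1 + V * W := by
        unfold g1
        ring
      rw [this]
      exact Q'.add_mem m1 (Q'.mul_mem_left _ hW)
    have mT : T * (T - 1) ∈ Q' := by
      have : T * (T - 1) = g2 - W * V - ((1 - W) * (1 - T) * X) * X + (T * (T - 1)) * W := by
        unfold g2
        ring
      rw [this]
      exact Q'.add_mem (Q'.sub_mem (Q'.sub_mem m2 (Q'.mul_mem_right _ hW)) (Q'.mul_mem_left _ mX))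
        (Q'.mul_mem_left _ hW)
    rcases hQ'.mem_or_mem mT with hT | hT
    · apply key mV
      rintro z ⟨_, _, hz⟩
      obtain ⟨b, c, hbc⟩ := ker_e4 z hz
      rw [hbc, map_add, map_mul, map_mul]
      exact Q'.add_mem (Q'.mul_mem_right _ hW) (Q'.mul_mem_right _ hT)
    · apply key mV
      rintro z ⟨_, hz, _⟩
      obtain ⟨b, c, hbc⟩ := ker_e3 z hz
      rw [hbc, map_add, map_mul, map_mul, map_sub, map_one]
      exact Q'.add_mem (Q'.mul_mem_right _ hW) (Q'.mul_mem_right _ hT)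
  · have mV : V ∈ Q' := by
      have : V = g2 + (V - (1 - T) * X ^ 2 - T * (T - 1)) * (1 - W) := by
        unfold g2
        ring
      rw [this]
      exact Q'.add_mem m2 (Q'.mul_mem_left _ hW)
    apply key mV
    rintro z ⟨hz, _, _⟩
    obtain ⟨b, hb⟩ := ker_e1 z hz
    rw [hb, map_mul, map_sub, map_one]
    exact Q'.mul_mem_right _ hW

lemma c0_W : c0 W = w := by
  rw [W, sc_apply, c0_apply, constantCoeff_C, constantCoeff_C]
lemma c0_T : c0 T = s := by
  rw [T, sc_apply, c0_apply, constantCoeff_C, constantCoeff_C]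
lemma c0_X : c0 X = 0 := by
  rw [c0_apply, constantCoeff_X, map_zero]
lemma c0_V : c0 V = 0 := by
  rw [V, c0_apply, constantCoeff_C, constantCoeff_X]

lemma yy_max (i : Fin 4) : yy i ∈ IsLocalRing.maximalIdeal RR := by
  rw [mem_max]
  fin_cases i
  · change e1 (c0 g1) = 0
    rw [g1, map_mul, c0_V, mul_zero, map_zero]
  · change e1 (c0 g2) = 0
    simp only [g2, map_add, map_mul, map_sub, map_pow, map_one, c0_W, c0_T, c0_X, c0_V, e1_w,
      map_zero]
    ring
  · change e1 (c0 g3) = 0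
    rw [g3, map_pow, c0_X, map_pow, map_zero]
    ring
  · change e1 (c0 g4) = 0
    simp only [g4, map_mul, map_sub, map_one, c0_W, e1_w]
    ring

lemma span_le_max : Ideal.span (Set.range yy) ≤ IsLocalRing.maximalIdeal RR := by
  rw [Ideal.span_le]
  rintro _ ⟨i, rfl⟩
  exact yy_max i

lemma radical_yy : (Ideal.span (Set.range yy)).radical = IsLocalRing.maximalIdeal RR := by
  apply le_antisymm
  · exact (IsLocalRing.maximalIdeal.isMaximal RR).isPrime.radical_le_iff.2 span_le_max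
  · rw [Ideal.radical_eq_sInf]
    refine le_sInf ?_
    rintro Q ⟨h, hQ⟩
    exact max_le_of Q hQ h

/-! ### The dimension of `R` -/

lemma dim_le : ringKrullDim RR ≤ ((4 : ℕ) : WithBot ℕ∞) := by
  rw [← IsLocalRing.maximalIdeal_height_eq_ringKrullDim (R := RR)]
  have h1 : IsLocalRing.maximalIdeal RR ∈ (Ideal.span (Set.range yy)).minimalPrimes := by
    refine ⟨⟨(IsLocalRing.maximalIdeal.isMaximal _).isPrime, span_le_max⟩, ?_⟩
    intro Q hQ _
    exact max_le_of Q hQ.1 hQ.2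
  have h3 := Ideal.height_le_card_of_mem_minimalPrimes_span (Set.toFinite _) h1
  have h4 : (Set.range yy).ncard ≤ 4 := by
    rw [← Set.image_univ]
    refine (Set.ncard_image_le Set.finite_univ).trans ?_
    simp
  have h5 : (IsLocalRing.maximalIdeal RR).height ≤ ((4 : ℕ) : ℕ∞) :=
    h3.trans (by exact_mod_cast h4)
  exact WithBot.coe_le_coe.2 h5

noncomputable def p1 : RR →+* PowerSeries Om :=
  (PowerSeries.map (constantCoeff (R := Om))).comp RR.subtype
noncomputable def p2 : RR →+* Om := c0.comp RR.subtype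
noncomputable def p3 : RR →+* K := e0.comp p2
noncomputable def p4 : RR →+* K := e4.comp p2

lemma w_ne : w ≠ 0 := by
  intro h
  have := e1_w
  rw [h, map_zero] at this
  exact zero_ne_one this

lemma w_ne' : (1 - w) ≠ 0 := by
  intro h
  have := congrArg e3 h
  rw [map_sub, map_one, e3_w, map_zero, sub_zero] at this
  exact one_ne_zero this

/-- the chain of primes -/
noncomputable def chn : Fin 5 → PrimeSpectrum RR :=
  ![⟨⊥, Ideal.isPrime_bot⟩, ⟨RingHom.ker p1, RingHom.ker_isPrime _⟩,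
    ⟨RingHom.ker p2, RingHom.ker_isPrime _⟩, ⟨RingHom.ker p3, RingHom.ker_isPrime _⟩,
    ⟨RingHom.ker p4, RingHom.ker_isPrime _⟩]

lemma chn_lt (i : Fin 4) : chn i.castSucc < chn i.succ := by
  have key : ∀ (I I' : Ideal RR) (h : I.IsPrime) (h' : I'.IsPrime) (x : RR), I ≤ I' → x ∈ I' →
      x ∉ I → (⟨I, h⟩ : PrimeSpectrum RR) < ⟨I', h'⟩ := by
    intro I I' h h' x h1 h2 h3
    refine lt_of_le_of_ne h1 ?_
    intro h4
    have h5 : I = I' := congrArg PrimeSpectrum.asIdeal h4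
    rw [h5] at h3
    exact h3 h2
  fin_cases i
  · refine key _ _ _ _ (yy 0) bot_le ?_ ?_
    · rw [RingHom.mem_ker]
      change PowerSeries.map constantCoeff ((1 - W) * V) = 0
      rw [map_mul, V, map_C, constantCoeff_X, map_zero, mul_zero]
    · rw [Ideal.mem_bot]
      intro h
      have h1 : g1 = 0 := congrArg Subtype.val h
      have h2 := congrArg a2 h1
      have h3 : coeff 1 (coeff 0 g1) = 1 - w := by
        have : g1 = sc (1 - w) * V := by
          rw [g1, W, map_sub, map_one]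
        rw [this, sc_apply, V, coeff_C_mul, coeff_C_mul, coeff_C, if_pos rfl, coeff_X, if_pos rfl,
          mul_one]
      rw [h1, map_zero, map_zero] at h3
      exact w_ne' h3.symm
  · refine key _ _ _ _ YY ?_ ?_ ?_
    · intro x hx
      rw [RingHom.mem_ker] at hx ⊢
      have h1 := congrArg constantCoeff hx
      rw [map_zero] at h1
      rw [← h1]
      change constantCoeff (constantCoeff x.1) = constantCoeff (PowerSeries.map constantCoeff x.1)
      rw [← coeff_zero_eq_constantCoeff_apply (PowerSeries.map constantCoeff x.1), coeff_map,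
        coeff_zero_eq_constantCoeff_apply]
    · rw [RingHom.mem_ker]
      exact c0_X
    · rw [RingHom.mem_ker]
      change PowerSeries.map constantCoeff (X : CC) ≠ 0
      rw [map_X]
      exact X_ne_zero
  · refine key _ _ _ _ (yy 3) ?_ ?_ ?_
    · intro x hx
      rw [RingHom.mem_ker] at hx ⊢
      change e0 (p2 x) = 0
      rw [hx, map_zero]
    · rw [RingHom.mem_ker]
      change e0 (c0 g4) = 0
      rw [g4, map_mul, map_mul, c0_W, e0_w, zero_mul]
    · rw [RingHom.mem_ker]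
      change c0 g4 ≠ 0
      rw [g4, map_mul, map_sub, map_one, c0_W]
      exact mul_ne_zero w_ne w_ne'
  · refine key _ _ _ _ (yy 1) ?_ ?_ ?_
    · intro x hx
      rw [RingHom.mem_ker] at hx ⊢
      exact e4_of_e0 _ hx
    · rw [RingHom.mem_ker]
      change e4 (c0 g2) = 0
      simp only [g2, map_add, map_mul, map_sub, map_pow, map_one, c0_W, c0_T, c0_X, c0_V, e4_w,
        e4_s, map_zero]
      ring
    · rw [RingHom.mem_ker]
      change e0 (c0 g2) ≠ 0
      simp only [g2, map_add, map_mul, map_sub, map_pow, map_one, c0_W, c0_T, c0_X, c0_V, e0_w,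
        e0_s, map_zero]
      have h1 : (0 : K) * 0 + (1 - 0) * (1 - algebraMap P K (MvPolynomial.X 0)) * 0 ^ 2 +
          (1 - 0) * algebraMap P K (MvPolynomial.X 0) * (algebraMap P K (MvPolynomial.X 0) - 1) =
          algebraMap P K (MvPolynomial.X 0 * (MvPolynomial.X 0 - 1)) := by
        rw [map_mul, map_sub, map_one]
        ring
      rw [h1]
      apply K_ne
      apply mul_ne_zero (MvPolynomial.X_ne_zero 0)
      intro h2
      have h3 := congrArg Z h2
      rw [map_sub, Z_X0, map_one, map_zero, zero_sub, neg_eq_zero] at h3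
      exact one_ne_zero h3

lemma dim_ge : ((4 : ℕ) : WithBot ℕ∞) ≤ ringKrullDim RR := by
  unfold ringKrullDim
  rw [Order.le_krullDim_iff]
  exact ⟨⟨4, chn, chn_lt⟩, rfl⟩

theorem dim_RR : ringKrullDim RR = ((4 : ℕ) : WithBot ℕ∞) := le_antisymm dim_le dim_ge

end Pool.Agent.H215R3.DF
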