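import Pool.Agent.H215R3.DF.Ring2

/-!
# `R / Y R` is Frobenius split
-/

set_option autoImplicit false

namespace Pool.Agent.H215R3.DF

open PowerSeries

/-- iterates of a splitting -/
def itr {Q : Type} [CommRing Q] (Φ : Q →+ Q) : ℕ → (Q →+ Q)
  | 0 => AddMonoidHom.id Q
  | (e + 1) => (itr Φ e).comp Φ

lemma itr_mul {Q : Type} [CommRing Q] (Φ : Q →+ Q) (h : ∀ a b, Φ (a ^ 2 * b) = a * Φ b) (e : ℕ) :
    ∀ a b, itr Φ e (a ^ 2 ^ e * b) = a * itr Φ e b := by
  induction e with
  | zero =>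
    intro a b
    rw [pow_zero, pow_one]
    rfl
  | succ e ih =>
    intro a b
    change itr Φ e (Φ (a ^ 2 ^ (e + 1) * b)) = a * itr Φ e (Φ b)
    rw [pow_succ 2 e, pow_mul, h, ih]

lemma itr_one {Q : Type} [CommRing Q] (Φ : Q →+ Q) (h1 : Φ 1 = 1) (e : ℕ) : itr Φ e 1 = 1 := by
  induction e with
  | zero => rfl
  | succ e ih =>
    change itr Φ e (Φ 1) = 1
    rw [h1, ih]

lemma closed_of_split {Q : Type} [CommRing Q] (Φ : Q →+ Q) (h1 : Φ 1 = 1)
    (h : ∀ a b, Φ (a ^ 2 * b) = a * Φ b) (I : Ideal Q) (r : Q) (e : ℕ)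
    (hr : r ^ 2 ^ e ∈ Ideal.span ((fun a => a ^ 2 ^ e) '' (I : Set Q))) : r ∈ I := by
  have key : ∀ x ∈ Ideal.span ((fun a => a ^ 2 ^ e) '' (I : Set Q)), itr Φ e x ∈ I := by
    intro x hx
    have : ∀ b, itr Φ e (b * x) ∈ I := by
      unfold Ideal.span at hx
      induction hx using Submodule.span_induction with
      | mem y hy =>
        obtain ⟨a, ha, rfl⟩ := hy
        intro b
        rw [mul_comm]
        change itr Φ e (a ^ 2 ^ e * b) ∈ I
        rw [itr_mul Φ h]
        exact I.mul_mem_right _ ha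
      | zero =>
        intro b
        rw [mul_zero, map_zero]
        exact I.zero_mem
      | add y z _ _ hy hz =>
        intro b
        rw [mul_add, map_add]
        exact I.add_mem (hy b) (hz b)
      | smul c y _ hy =>
        intro b
        rw [smul_eq_mul, ← mul_assoc]
        exact hy _
    have := this 1
    rwa [one_mul] at this
  have h2 := key _ hr
  have h3 := itr_mul Φ h e r 1
  rw [mul_one, itr_one Φ h1, mul_one] at h3
  rwa [h3] at h2

/-- The ring `R / Y R`, as a subring of `Ω[[V]]`. -/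
noncomputable def AA : Subring (PowerSeries Om) :=
  ((e1.comp constantCoeff).eqLocus (e3.comp constantCoeff)) ⊓
    ((e1.comp constantCoeff).eqLocus (e4.comp constantCoeff))

lemma mem_AA (g : PowerSeries Om) : g ∈ AA ↔
    e1 (constantCoeff g) = e3 (constantCoeff g) ∧ e1 (constantCoeff g) = e4 (constantCoeff g) :=
  Iff.rfl

lemma LV_mem (g : PowerSeries Om) (hg : g ∈ AA) : LV g ∈ AA := by
  rw [mem_AA] at hg ⊢
  have h0 : constantCoeff (LV g) = LO (constantCoeff g) := by
    rw [← coeff_zero_eq_constantCoeff_apply, coeff_LV, mul_zero, coeff_zero_eq_constantCoeff_apply]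
  rw [h0]
  exact ⟨LO_ext q1 q3 _ _ q1_L q3_L _ hg.1, LO_ext q1 q4 _ _ q1_L q4_L _ hg.2⟩

/-- the splitting on `AA` -/
noncomputable def LA : AA →+ AA where
  toFun g := ⟨LV g.1, LV_mem _ g.2⟩
  map_zero' := Subtype.ext (map_zero LV)
  map_add' := fun a b => Subtype.ext (map_add LV a.1 b.1)

lemma LV_one : LV 1 = 1 := by
  ext j
  rw [coeff_LV, PowerSeries.coeff_one, PowerSeries.coeff_one]
  by_cases h : j = 0
  · rw [h, mul_zero, if_pos rfl, LO_one]
  · rw [if_neg h, if_neg (by omega), LO_zero]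

lemma LA_one : LA 1 = 1 := Subtype.ext LV_one
lemma LA_mul (a b : AA) : LA (a ^ 2 * b) = a * LA b := Subtype.ext (LV_sq_mul a.1 b.1)

/-- setting `Y = 0` -/
noncomputable def pi0 : RR →+* AA :=
  ((constantCoeff (R := PowerSeries Om)).comp RR.subtype).codRestrict AA (by
    intro h
    rw [mem_AA]
    exact ⟨(e13 h).symm, (e14 h).symm⟩)

lemma pi0_coe (h : RR) : (pi0 h).1 = constantCoeff h.1 := rfl

/-- the element `Y` -/
noncomputable def YY : RR := ⟨X, by
  rw [mem_RR]
  obtain ⟨h1, h2, h3, h4⟩ := a_X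
  rw [h1, h2, h3, h4]
  exact ⟨rfl, rfl⟩⟩

lemma YY_ne : YY ≠ 0 := by
  intro h
  have h1 : (X : CC) = 0 := congrArg Subtype.val h
  exact X_ne_zero h1

lemma ker_pi0 : RingHom.ker pi0 = Ideal.span {YY} := by
  ext h
  rw [RingHom.mem_ker, Ideal.mem_span_singleton]
  constructor
  · intro h0
    have h1 : constantCoeff h.1 = 0 := congrArg Subtype.val h0
    rw [← X_dvd_iff] at h1
    obtain ⟨g, hg⟩ := h1
    have hgR : g ∈ RR := by
      have hR := (mem_RR h.1).1 h.2
      obtain ⟨x1, x2, x3, x4⟩ := a_X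
      rw [hg, map_mul, map_mul, map_mul, map_mul, x1, x2, x3, x4] at hR
      rw [mem_RR]
      exact ⟨mul_left_cancel₀ X_ne_zero hR.1, mul_left_cancel₀ X_ne_zero hR.2⟩
    exact ⟨⟨g, hgR⟩, Subtype.ext hg⟩
  · rintro ⟨g, rfl⟩
    apply Subtype.ext
    rw [pi0_coe]
    change constantCoeff (X * g.1 : CC) = 0
    rw [map_mul, constantCoeff_X, zero_mul]

lemma pi0_surj : Function.Surjective pi0 := by
  rintro ⟨g, hg⟩
  rw [mem_AA] at hg
  set h0 : PowerSeries Om := PowerSeries.mk fun n =>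
    if n ≠ 0 ∧ 2 ∣ n then (1 - w) * (1 - s) * kap (e1 (coeff (n / 2) g)) else 0 with hh0
  have c1 : PowerSeries.map e1 h0 = 0 := by
    ext n
    rw [coeff_map, hh0, coeff_mk, map_zero]
    split_ifs
    · rw [map_mul, map_mul, map_sub, e1_w, map_one, sub_self, zero_mul, zero_mul]
    · exact map_zero _
  have c3 : PowerSeries.map e3 h0 = 0 := by
    ext n
    rw [coeff_map, hh0, coeff_mk, map_zero]
    split_ifs
    · rw [map_mul, map_mul, map_sub e3 1 s, e3_s, map_one, sub_self, mul_zero, zero_mul]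
    · exact map_zero _
  refine ⟨⟨C g + inY h0, ?_⟩, ?_⟩
  · rw [mem_RR]
    constructor
    · rw [map_add, map_add, a1_C, a3_C, a1_inY, a3_inY, c1, c3, hg.1]
    · rw [map_add, map_add, a4_C, a2_inY, a4_inY, c1, add_zero]
      ext n
      rw [coeff_a2_C, map_add, coeff_C, coeff_map, hh0, coeff_mk]
      by_cases hn : n = 0
      · subst hn
        simp only [ne_eq, not_true_eq_false, false_and, if_false, map_zero, add_zero, if_true,
          dvd_zero, Nat.zero_div]
        rw [coeff_zero_eq_constantCoeff_apply, hg.2]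
      · rw [if_neg hn, zero_add]
        by_cases h2 : 2 ∣ n
        · rw [if_pos h2, if_pos ⟨hn, h2⟩, map_mul, map_mul, map_sub, map_sub, map_one, e4_w, e4_s,
            e4_kap]
          ring
        · rw [if_neg h2, if_neg (fun h => h2 h.2), map_zero]
  · apply Subtype.ext
    rw [pi0_coe]
    change constantCoeff (C g + inY h0 : CC) = g
    rw [map_add, constantCoeff_C, ← coeff_zero_eq_constantCoeff_apply (inY h0), coeff_inY, hh0,
      coeff_mk, if_neg (fun h => h.1 rfl), map_zero, add_zero]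

/-- `R / Y R` -/
noncomputable def quotEquiv : (RR ⧸ Ideal.span {YY}) ≃+* AA :=
  (Ideal.quotEquivOfEq ker_pi0.symm).trans (RingHom.quotientKerEquivOfSurjective pi0_surj)

theorem quot_closed (I : Ideal (RR ⧸ Ideal.span {YY})) (r : RR ⧸ Ideal.span {YY}) (e : ℕ)
    (hr : r ^ 2 ^ e ∈ Ideal.span ((fun a => a ^ 2 ^ e) '' (I : Set (RR ⧸ Ideal.span {YY})))) :
    r ∈ I := by
  let Φ : (RR ⧸ Ideal.span {YY}) →+ (RR ⧸ Ideal.span {YY}) :=
    (quotEquiv.symm : AA →+* _).toAddMonoidHom.comp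
      (LA.comp (quotEquiv : _ →+* AA).toAddMonoidHom)
  have hΦ : ∀ x, Φ x = quotEquiv.symm (LA (quotEquiv x)) := fun _ => rfl
  refine closed_of_split Φ ?_ ?_ I r e hr
  · rw [hΦ, map_one, LA_one, map_one]
  · intro a b
    rw [hΦ, hΦ, map_mul, map_pow, LA_mul, map_mul, RingEquiv.symm_apply_apply]

end Pool.Agent.H215R3.DF
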