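import Pool.Agent.H215R3.DF.Split
import Pool.Agent.H215R3.DF.Noeth

/-!
# The ring `R`
-/

set_option autoImplicit false

namespace Pool.Agent.H215R3.DF

open PowerSeries Finset

lemma four (n : ℕ) (F : ℕ → ℕ → ℕ → ℕ → K) :
    ∑ x ∈ antidiagonal n, ∑ y ∈ antidiagonal x.1, ∑ z ∈ antidiagonal x.2, F y.1 y.2 z.1 z.2 =
    ∑ x ∈ antidiagonal n, ∑ y ∈ antidiagonal x.1, ∑ z ∈ antidiagonal x.2, F y.1 z.1 y.2 z.2 := by
  rw [Finset.sum_sigma', Finset.sum_sigma', Finset.sum_sigma', Finset.sum_sigma']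
  refine Finset.sum_nbij'
    (fun t => ⟨⟨(t.1.2.1 + t.2.1, t.1.2.2 + t.2.2), (t.1.2.1, t.2.1)⟩, (t.1.2.2, t.2.2)⟩)
    (fun t => ⟨⟨(t.1.2.1 + t.2.1, t.1.2.2 + t.2.2), (t.1.2.1, t.2.1)⟩, (t.1.2.2, t.2.2)⟩)
    ?_ ?_ ?_ ?_ ?_
  · rintro ⟨⟨⟨i, k⟩, ⟨a, b⟩⟩, ⟨c, d⟩⟩ h
    simp only [mem_sigma, HasAntidiagonal.mem_antidiagonal] at h ⊢
    obtain ⟨⟨h1, h2⟩, h3⟩ := h
    exact ⟨⟨by omega, trivial⟩, trivial⟩
  · rintro ⟨⟨⟨i, k⟩, ⟨a, b⟩⟩, ⟨c, d⟩⟩ h
    simp only [mem_sigma, HasAntidiagonal.mem_antidiagonal] at h ⊢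
    obtain ⟨⟨h1, h2⟩, h3⟩ := h
    exact ⟨⟨by omega, trivial⟩, trivial⟩
  · rintro ⟨⟨⟨i, k⟩, ⟨a, b⟩⟩, ⟨c, d⟩⟩ h
    simp only [mem_sigma, HasAntidiagonal.mem_antidiagonal] at h ⊢
    obtain ⟨⟨h1, h2⟩, h3⟩ := h
    subst h2 h3
    rfl
  · rintro ⟨⟨⟨i, k⟩, ⟨a, b⟩⟩, ⟨c, d⟩⟩ h
    simp only [mem_sigma, HasAntidiagonal.mem_antidiagonal] at h ⊢
    obtain ⟨⟨h1, h2⟩, h3⟩ := h
    subst h2 h3
    rfl
  · rintro ⟨⟨⟨i, k⟩, ⟨a, b⟩⟩, ⟨c, d⟩⟩ h
    rfl

/-- restriction to the diagonal -/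
noncomputable def diag : PowerSeries (PowerSeries K) →+* PowerSeries K where
  toFun g := PowerSeries.mk fun n => ∑ x ∈ antidiagonal n, coeff x.2 (coeff x.1 g)
  map_one' := by
    ext n
    rw [coeff_mk]
    rcases n with _ | n
    · simp
    · rw [PowerSeries.coeff_one, if_neg (Nat.succ_ne_zero n)]
      apply Finset.sum_eq_zero
      rintro ⟨i, k⟩ h
      rw [HasAntidiagonal.mem_antidiagonal] at h
      simp only at h ⊢
      rw [PowerSeries.coeff_one]
      split_ifs with h0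
      · rw [PowerSeries.coeff_one, if_neg (by omega)]
      · exact map_zero _
  map_mul' := by
    intro g g'
    ext n
    rw [coeff_mul, coeff_mk]
    have h1 : ∀ x ∈ antidiagonal n, coeff x.2 (coeff x.1 (g * g')) =
        ∑ y ∈ antidiagonal x.1, ∑ z ∈ antidiagonal x.2,
          coeff z.1 (coeff y.1 g) * coeff z.2 (coeff y.2 g') := by
      intro x _
      rw [coeff_mul, map_sum]
      apply Finset.sum_congr rfl
      intro y _
      rw [coeff_mul]
    rw [Finset.sum_congr rfl h1,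
      four n (fun a b c d => coeff c (coeff a g) * coeff d (coeff b g'))]
    apply Finset.sum_congr rfl
    intro x _
    rw [coeff_mk, coeff_mk, Finset.sum_mul_sum]
  map_zero' := by
    ext n
    rw [coeff_mk, map_zero]
    apply Finset.sum_eq_zero
    intro x _
    rw [map_zero, map_zero]
  map_add' := by
    intro g g'
    ext n
    rw [map_add, coeff_mk, coeff_mk, coeff_mk, ← Finset.sum_add_distrib]
    apply Finset.sum_congr rfl
    intro x _
    rw [map_add, map_add]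

lemma coeff_diag (g : PowerSeries (PowerSeries K)) (n : ℕ) :
    coeff n (diag g) = ∑ x ∈ antidiagonal n, coeff x.2 (coeff x.1 g) :=
  coeff_mk n (fun n => ∑ x ∈ antidiagonal n, coeff x.2 (coeff x.1 g))

/-- `Ω[[Y, V]]` -/
abbrev CC := PowerSeries (PowerSeries Om)

noncomputable def a1 : CC →+* PowerSeries K := PowerSeries.map (e1.comp constantCoeff)
noncomputable def a3 : CC →+* PowerSeries K := PowerSeries.map (e3.comp constantCoeff)
noncomputable def a4 : CC →+* PowerSeries K := PowerSeries.map (e4.comp constantCoeff)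
noncomputable def a2 : CC →+* PowerSeries K :=
  diag.comp (PowerSeries.map ((expand 2 two_ne_zero : PowerSeries K →ₐ[K] PowerSeries K).toRingHom.comp
    (PowerSeries.map e1)))

lemma coeff_a1 (h : CC) (n : ℕ) : coeff n (a1 h) = e1 (constantCoeff (coeff n h)) := by
  rw [a1, coeff_map]
  rfl
lemma coeff_a3 (h : CC) (n : ℕ) : coeff n (a3 h) = e3 (constantCoeff (coeff n h)) := by
  rw [a3, coeff_map]
  rfl
lemma coeff_a4 (h : CC) (n : ℕ) : coeff n (a4 h) = e4 (constantCoeff (coeff n h)) := by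
  rw [a4, coeff_map]
  rfl
lemma coeff_a2 (h : CC) (n : ℕ) : coeff n (a2 h) = ∑ x ∈ antidiagonal n,
    if 2 ∣ x.2 then e1 (coeff (x.2 / 2) (coeff x.1 h)) else 0 := by
  rw [a2, RingHom.comp_apply, coeff_diag]
  apply Finset.sum_congr rfl
  intro x _
  rw [coeff_map]
  change coeff x.2 (expand 2 two_ne_zero (PowerSeries.map e1 (coeff x.1 h))) = _
  rw [coeff_expand]
  split_ifs
  · rw [coeff_map]
  · rfl

/-- The ring `R`. -/
noncomputable def RR : Subring CC := (a1.eqLocus a3) ⊓ (a2.eqLocus a4)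

lemma mem_RR (h : CC) : h ∈ RR ↔ a1 h = a3 h ∧ a2 h = a4 h := Iff.rfl

/-- power series in `Y` only -/
noncomputable def inY : PowerSeries Om →+* CC := PowerSeries.map C

lemma coeff_inY (h : PowerSeries Om) (n : ℕ) : coeff n (inY h) = C (coeff n h) := by
  rw [inY, coeff_map]

lemma a1_inY (h : PowerSeries Om) : a1 (inY h) = PowerSeries.map e1 h := by
  ext n
  rw [coeff_a1, coeff_inY, constantCoeff_C, coeff_map]
lemma a3_inY (h : PowerSeries Om) : a3 (inY h) = PowerSeries.map e3 h := by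
  ext n
  rw [coeff_a3, coeff_inY, constantCoeff_C, coeff_map]
lemma a4_inY (h : PowerSeries Om) : a4 (inY h) = PowerSeries.map e4 h := by
  ext n
  rw [coeff_a4, coeff_inY, constantCoeff_C, coeff_map]
lemma a2_inY (h : PowerSeries Om) : a2 (inY h) = PowerSeries.map e1 h := by
  ext n
  rw [coeff_a2, coeff_map, Finset.sum_eq_single (n, 0)]
  · simp [coeff_inY]
  · rintro ⟨i, k⟩ h1 h2
    rw [HasAntidiagonal.mem_antidiagonal] at h1
    simp only at h1 ⊢
    split_ifs with h3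
    · rw [coeff_inY, coeff_C, if_neg, map_zero]
      intro h4
      apply h2
      have : k = 0 := by omega
      rw [this] at h1 ⊢
      rw [← h1]
      rfl
    · rfl
  · intro h1
    exact absurd (by rw [HasAntidiagonal.mem_antidiagonal]; rfl) h1

/-- power series in `V` only -/
lemma a1_C (g : PowerSeries Om) : a1 (C g) = C (e1 (constantCoeff g)) := by
  rw [a1, map_C]
  rfl
lemma a3_C (g : PowerSeries Om) : a3 (C g) = C (e3 (constantCoeff g)) := by
  rw [a3, map_C]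
  rfl
lemma a4_C (g : PowerSeries Om) : a4 (C g) = C (e4 (constantCoeff g)) := by
  rw [a4, map_C]
  rfl
lemma coeff_a2_C (g : PowerSeries Om) (n : ℕ) : coeff n (a2 (C g)) =
    if 2 ∣ n then e1 (coeff (n / 2) g) else 0 := by
  rw [coeff_a2, Finset.sum_eq_single (0, n)]
  · simp
  · rintro ⟨i, k⟩ h1 h2
    rw [HasAntidiagonal.mem_antidiagonal] at h1
    simp only at h1 ⊢
    split_ifs with h3
    · rw [coeff_C, if_neg, map_zero, map_zero]
      intro h4
      apply h2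
      rw [h4, zero_add] at h1
      rw [h4, h1]
    · rfl
  · intro h1
    exact absurd (by rw [HasAntidiagonal.mem_antidiagonal]; simp) h1

lemma coeff_zero_a2 (h : CC) : coeff 0 (a2 h) = e1 (constantCoeff (constantCoeff h)) := by
  rw [coeff_a2]
  simp

lemma coeff_one_a2 (h : CC) : coeff 1 (a2 h) = e1 (constantCoeff (coeff 1 h)) := by
  rw [coeff_a2]
  simp [Finset.Nat.antidiagonal_succ]

lemma a_X : a1 X = X ∧ a2 X = X ∧ a3 X = X ∧ a4 X = X := by
  have h1 : (X : CC) = inY X := by rw [inY, map_X]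
  rw [h1, a1_inY, a2_inY, a3_inY, a4_inY, map_X, map_X, map_X]
  exact ⟨rfl, rfl, rfl, rfl⟩

/-- scalars -/
noncomputable def sc : Om →+* CC := (C : PowerSeries Om →+* CC).comp (C : Om →+* PowerSeries Om)

lemma sc_apply (z : Om) : sc z = C (C z) := rfl

lemma sc_eq_inY (z : Om) : sc z = inY (C z) := by
  rw [inY, map_C, sc_apply]

lemma a1_sc (z : Om) : a1 (sc z) = C (e1 z) := by rw [sc_eq_inY, a1_inY, map_C]
lemma a2_sc (z : Om) : a2 (sc z) = C (e1 z) := by rw [sc_eq_inY, a2_inY, map_C]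
lemma a3_sc (z : Om) : a3 (sc z) = C (e3 z) := by rw [sc_eq_inY, a3_inY, map_C]
lemma a4_sc (z : Om) : a4 (sc z) = C (e4 z) := by rw [sc_eq_inY, a4_inY, map_C]

/-- the variable `V` -/
noncomputable def V : CC := C X

lemma a_V : a1 V = 0 ∧ a2 V = X ^ 2 ∧ a3 V = 0 ∧ a4 V = 0 := by
  refine ⟨?_, ?_, ?_, ?_⟩
  · rw [V, a1_C, constantCoeff_X, map_zero, map_zero]
  · ext n
    rw [V, coeff_a2_C, coeff_X_pow, coeff_X]
    by_cases h : n = 2
    · subst h
      simp
    · rw [if_neg h]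
      split_ifs with h1 h2
      · omega
      · exact map_zero _
      · rfl
  · rw [V, a3_C, constantCoeff_X, map_zero, map_zero]
  · rw [V, a4_C, constantCoeff_X, map_zero, map_zero]

end Pool.Agent.H215R3.DF
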