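import Pool.Agent.H215R3.DF.Ring

/-!
# `R` is a Noetherian local domain of characteristic two
-/

set_option autoImplicit false

namespace Pool.Agent.H215R3.DF

open PowerSeries

noncomputable def sg (u : K) : Om := (exists_e u u u).choose

lemma sg_spec (u : K) : e1 (sg u) = u ∧ e3 (sg u) = u ∧ e4 (sg u) = u := (exists_e u u u).choose_spec

/-- a lift of a diagonal element -/
noncomputable def dl (a : PowerSeries K) : CC := inY (PowerSeries.mk fun n => sg (coeff n a))

lemma dl_spec (a : PowerSeries K) : a1 (dl a) = a ∧ a2 (dl a) = a ∧ a3 (dl a) = a ∧ a4 (dl a) = a := by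
  have h1 : PowerSeries.map e1 (PowerSeries.mk fun n => sg (coeff n a)) = a := by
    ext n
    rw [coeff_map, coeff_mk, (sg_spec _).1]
  have h3 : PowerSeries.map e3 (PowerSeries.mk fun n => sg (coeff n a)) = a := by
    ext n
    rw [coeff_map, coeff_mk, (sg_spec _).2.1]
  have h4 : PowerSeries.map e4 (PowerSeries.mk fun n => sg (coeff n a)) = a := by
    ext n
    rw [coeff_map, coeff_mk, (sg_spec _).2.2]
  rw [dl, a1_inY, a2_inY, a3_inY, a4_inY]
  exact ⟨h1, h1, h3, h4⟩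

lemma dl_mem (a : PowerSeries K) : dl a ∈ RR := by
  rw [mem_RR]
  obtain ⟨h1, h2, h3, h4⟩ := dl_spec a
  rw [h1, h2, h3, h4]
  exact ⟨rfl, rfl⟩

noncomputable def E3 : CC := sc ((1 - w) * s)
noncomputable def E4 : CC := sc ((1 - w) * (1 - s))

lemma decomp (h : CC) : ∃ r r' r'' : RR, h = r.1 + r'.1 * E3 + r''.1 * E4 := by
  obtain ⟨p1, p2, p3, p4⟩ := dl_spec (a3 h - a1 h)
  obtain ⟨q1, q2, q3, q4⟩ := dl_spec (a4 h - a2 h)
  refine ⟨⟨h - dl (a3 h - a1 h) * E3 - dl (a4 h - a2 h) * E4, ?_⟩, ⟨_, dl_mem (a3 h - a1 h)⟩,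
    ⟨_, dl_mem (a4 h - a2 h)⟩, by ring⟩
  rw [mem_RR]
  constructor
  · simp only [map_sub, map_mul, E3, E4, a1_sc, a3_sc, p1, p3, q1, q3, e1_w, e3_w, e3_s, map_one]
    simp
  · simp only [map_sub, map_mul, E3, E4, a2_sc, a4_sc, p2, p4, q2, q4, e1_w, e4_w, e4_s, map_one]
    simp

instance : Module.Finite RR CC := by
  classical
  refine ⟨⟨({1, E3, E4} : Finset CC), ?_⟩⟩
  rw [eq_top_iff]
  intro h _
  obtain ⟨r, r', r'', hr⟩ := decomp h
  have h0 : ∀ (r : RR) (x : CC), r • x = r.1 * x := fun _ _ => rfl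
  rw [hr]
  refine Submodule.add_mem _ (Submodule.add_mem _ ?_ ?_) ?_
  · have : r.1 = r • (1 : CC) := by rw [h0, mul_one]
    rw [this]
    exact Submodule.smul_mem _ _ (Submodule.subset_span (by simp))
  · rw [← h0]
    exact Submodule.smul_mem _ _ (Submodule.subset_span (by simp))
  · rw [← h0]
    exact Submodule.smul_mem _ _ (Submodule.subset_span (by simp))

instance : IsNoetherianRing RR := by
  have n1 : IsNoetherian RR (CC ⧸ RingHom.ker a1) := noeth_quot RR a1
    (fun c => ⟨⟨dl (a1 c), dl_mem _⟩, (dl_spec (a1 c)).1⟩)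
  have n2 : IsNoetherian RR (CC ⧸ RingHom.ker a2) := noeth_quot RR a2
    (fun c => ⟨⟨dl (a2 c), dl_mem _⟩, (dl_spec (a2 c)).2.1⟩)
  have n3 : IsNoetherian RR (CC ⧸ RingHom.ker a3) := noeth_quot RR a3
    (fun c => ⟨⟨dl (a3 c), dl_mem _⟩, (dl_spec (a3 c)).2.2.1⟩)
  have n4 : IsNoetherian RR (CC ⧸ RingHom.ker a4) := noeth_quot RR a4
    (fun c => ⟨⟨dl (a4 c), dl_mem _⟩, (dl_spec (a4 c)).2.2.2⟩)
  refine noethRing_of RR ((RingHom.ker a1 ⊓ RingHom.ker a2) ⊓ (RingHom.ker a3 ⊓ RingHom.ker a4)) ?_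
    (noeth_inf RR _ _ (noeth_inf RR _ _ n1 n2) (noeth_inf RR _ _ n3 n4))
  rintro x ⟨⟨h1, h2⟩, ⟨h3, h4⟩⟩
  have h1' : a1 x = 0 := h1
  have h2' : a2 x = 0 := h2
  have h3' : a3 x = 0 := h3
  have h4' : a4 x = 0 := h4
  rw [mem_RR, h1', h2', h3', h4']
  exact ⟨rfl, rfl⟩

instance : IsDomain CC := NoZeroDivisors.to_isDomain _
instance : IsDomain RR := inferInstance

/-- the constant coefficient -/
noncomputable def c0 : CC →+* Om := (constantCoeff (R := Om)).comp (constantCoeff (R := PowerSeries Om))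

lemma c0_apply (h : CC) : c0 h = constantCoeff (constantCoeff h) := rfl

lemma c0_a1 (h : CC) : coeff 0 (a1 h) = e1 (c0 h) := by
  rw [coeff_a1, coeff_zero_eq_constantCoeff_apply, c0_apply]
lemma c0_a2 (h : CC) : coeff 0 (a2 h) = e1 (c0 h) := by
  rw [coeff_zero_a2, c0_apply]
lemma c0_a3 (h : CC) : coeff 0 (a3 h) = e3 (c0 h) := by
  rw [coeff_a3, coeff_zero_eq_constantCoeff_apply, c0_apply]
lemma c0_a4 (h : CC) : coeff 0 (a4 h) = e4 (c0 h) := by
  rw [coeff_a4, coeff_zero_eq_constantCoeff_apply, c0_apply]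

lemma e13 (h : RR) : e3 (c0 h.1) = e1 (c0 h.1) := by
  rw [← c0_a1, ← c0_a3, ((mem_RR h.1).1 h.2).1]

lemma e14 (h : RR) : e4 (c0 h.1) = e1 (c0 h.1) := by
  rw [← c0_a2, ← c0_a4, ((mem_RR h.1).1 h.2).2]

lemma isUnit_RR (h : RR) : IsUnit h ↔ e1 (c0 h.1) ≠ 0 := by
  constructor
  · intro hu
    have := ((hu.map RR.subtype).map c0).map e1
    exact this.ne_zero
  · intro hne
    have h1 : IsUnit (c0 h.1) := isUnit_Om _ hne (by rw [e13]; exact hne) (by rw [e14]; exact hne)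
    have h2 : IsUnit h.1 := by
      rw [PowerSeries.isUnit_iff_constantCoeff, PowerSeries.isUnit_iff_constantCoeff]
      exact h1
    obtain ⟨g, hg⟩ := h2.exists_right_inv
    have hgR : g ∈ RR := by
      rw [mem_RR]
      constructor
      · have e1' : a1 h.1 * a1 g = 1 := by rw [← map_mul, hg, map_one]
        have e3' : a3 h.1 * a3 g = 1 := by rw [← map_mul, hg, map_one]
        have hR : a1 h.1 = a3 h.1 := h.2.1
        rw [← hR] at e3'
        calc a1 g = a1 g * (a1 h.1 * a3 g) := by rw [e3', mul_one]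
          _ = (a1 h.1 * a1 g) * a3 g := by ring
          _ = a3 g := by rw [e1', one_mul]
      · have e1' : a2 h.1 * a2 g = 1 := by rw [← map_mul, hg, map_one]
        have e3' : a4 h.1 * a4 g = 1 := by rw [← map_mul, hg, map_one]
        have hR : a2 h.1 = a4 h.1 := h.2.2
        rw [← hR] at e3'
        calc a2 g = a2 g * (a2 h.1 * a4 g) := by rw [e3', mul_one]
          _ = (a2 h.1 * a2 g) * a4 g := by ring
          _ = a4 g := by rw [e1', one_mul]
    exact IsUnit.of_mul_eq_one (⟨g, hgR⟩ : RR) (Subtype.ext hg)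

instance : IsLocalRing RR := by
  refine IsLocalRing.of_isUnit_or_isUnit_one_sub_self ?_
  intro h
  rw [isUnit_RR, isUnit_RR]
  by_cases h0 : e1 (c0 h.1) = 0
  · right
    have : ((1 - h : RR) : CC) = 1 - h.1 := rfl
    rw [this, map_sub, map_sub, map_one, map_one, h0, sub_zero]
    exact one_ne_zero
  · left
    exact h0

lemma mem_max (h : RR) : h ∈ IsLocalRing.maximalIdeal RR ↔ e1 (c0 h.1) = 0 := by
  rw [IsLocalRing.mem_maximalIdeal, mem_nonunits_iff, isUnit_RR, not_not]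

instance : CharP CC 2 := by
  refine charP_of_injective_ringHom (f := sc) ?_ 2
  intro a b h
  exact C_injective (C_injective h)

instance : CharP RR 2 := by
  refine ⟨fun x => ?_⟩
  have hinj : Function.Injective RR.subtype := Subtype.val_injective
  rw [← CharP.cast_eq_zero_iff CC 2, ← map_natCast RR.subtype, map_eq_zero_iff _ hinj]

end Pool.Agent.H215R3.DF
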