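import Pool.Agent.H215R3.DF.Omega

/-!
# The Frobenius splitting of `Ω` and of `Ω[[V]]`
-/

set_option autoImplicit false

namespace Pool.Agent.H215R3.DF

open MvPolynomial

/-- the splitting on `Ω`, as a function -/
noncomputable def LO (z : Om) : Om :=
  IsLocalization.mk' Om (L ((IsLocalization.sec S z).1 * (IsLocalization.sec S z).2.1))
    (IsLocalization.sec S z).2

lemma LO_spec (z : Om) (a f : P) (hf : f ∈ S) (h : z * algebraMap P Om f = algebraMap P Om a) :
    LO z * algebraMap P Om f = algebraMap P Om (L (a * f)) := by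
  set a0 := (IsLocalization.sec S z).1 with ha0
  set f0 := (IsLocalization.sec S z).2 with hf0
  have h0 : z * algebraMap P Om f0.1 = algebraMap P Om a0 := IsLocalization.sec_spec S z
  have h1 : LO z * algebraMap P Om f0.1 = algebraMap P Om (L (a0 * f0.1)) :=
    IsLocalization.mk'_spec _ _ _
  have h2 : a * f0.1 = a0 * f := by
    apply inj
    rw [map_mul, map_mul, ← h, ← h0]
    ring
  have h3 : f * L (a0 * f0.1) = f0.1 * L (a * f) := by
    rw [← L_sq_mul, ← L_sq_mul]
    congr 1
    linear_combination (-(f * f0.1)) * h2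
  apply mul_right_cancel₀ (alg_ne f0.1 f0.2)
  have h4 := congrArg (algebraMap P Om) h3
  rw [map_mul (algebraMap P Om), map_mul (algebraMap P Om)] at h4
  linear_combination (algebraMap P Om f) * h1 + h4

lemma LO_add (z z' : Om) : LO (z + z') = LO z + LO z' := by
  obtain ⟨a, f, hf, h⟩ := exists_frac z
  obtain ⟨a', f', hf', h'⟩ := exists_frac z'
  have h1 := LO_spec z a f hf h
  have h2 := LO_spec z' a' f' hf' h'
  have h3 := LO_spec (z + z') (a * f' + a' * f) (f * f') (mul_mem hf hf') (by
    rw [map_add, map_mul, map_mul, map_mul, ← h, ← h']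
    ring)
  have h4 : L ((a * f' + a' * f) * (f * f')) = f' * L (a * f) + f * L (a' * f') := by
    rw [← L_sq_mul, ← L_sq_mul, ← map_add]
    congr 1
    ring
  apply mul_right_cancel₀ (mul_ne_zero (alg_ne f hf) (alg_ne f' hf'))
  rw [← map_mul, h3, h4, map_add, map_mul (algebraMap P Om), map_mul (algebraMap P Om), ← h1, ← h2,
    map_mul (algebraMap P Om)]
  ring

lemma LO_sq_mul (y z : Om) : LO (y ^ 2 * z) = y * LO z := by
  obtain ⟨a, f, hf, h⟩ := exists_frac z
  obtain ⟨b, g, hg, h'⟩ := exists_frac y
  have h1 := LO_spec z a f hf h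
  have h3 := LO_spec (y ^ 2 * z) (b ^ 2 * a) (g ^ 2 * f) (mul_mem (pow_mem hg 2) hf) (by
    rw [map_mul, map_mul, map_pow, map_pow, ← h, ← h']
    ring)
  have h4 : L (b ^ 2 * a * (g ^ 2 * f)) = b * g * L (a * f) := by
    rw [← L_sq_mul]
    congr 1
    ring
  apply mul_right_cancel₀ (alg_ne (g ^ 2 * f) (mul_mem (pow_mem hg 2) hf))
  rw [h3, h4, map_mul, map_mul, ← h1, ← h', map_mul, map_pow]
  ring

lemma LO_one : LO 1 = 1 := by
  have := LO_spec 1 1 1 (one_mem _) (by simp)
  rw [map_one, mul_one, mul_one, L_one, map_one] at this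
  exact this

/-- compatibility with the specialisations -/
lemma LO_ext (q q' : P →+* P) (hq : ∀ f ∈ S, q f ≠ 0) (hq' : ∀ f ∈ S, q' f ≠ 0)
    (hL : ∀ f, q (L f) = L (q f)) (hL' : ∀ f, q' (L f) = L (q' f)) (z : Om)
    (h : ext q hq z = ext q' hq' z) : ext q hq (LO z) = ext q' hq' (LO z) := by
  obtain ⟨a, f, hf, h0⟩ := exists_frac z
  have h1 := LO_spec z a f hf h0
  have e := congrArg (ext q hq) h1
  have e' := congrArg (ext q' hq') h1
  have d := congrArg (ext q hq) h0
  have d' := congrArg (ext q' hq') h0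
  rw [map_mul, ext_alg, ext_alg] at e e' d d'
  have n := K_ne (hq f hf)
  have n' := K_ne (hq' f hf)
  have h2 : q a * q' f = q' a * q f := by
    apply injK
    rw [map_mul, map_mul, ← d, ← d', h]
    ring
  have h3 : q' f * q (L (a * f)) = q f * q' (L (a * f)) := by
    rw [hL, hL', map_mul q, map_mul q', ← L_sq_mul, ← L_sq_mul]
    congr 1
    linear_combination (q f * q' f) * h2
  have h4 := congrArg (algebraMap P K) h3
  rw [map_mul (algebraMap P K), map_mul (algebraMap P K)] at h4
  apply mul_right_cancel₀ (mul_ne_zero n n')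
  linear_combination (algebraMap P K (q' f)) * e - (algebraMap P K (q f)) * e' + h4

lemma LO_zero : LO 0 = 0 := by
  have := LO_sq_mul 0 0
  simpa using this

/-- the splitting on `Ω[[V]]` -/
noncomputable def LV : PowerSeries Om →+ PowerSeries Om where
  toFun g := PowerSeries.mk fun j => LO (PowerSeries.coeff (2 * j) g)
  map_zero' := by
    ext j
    rw [PowerSeries.coeff_mk, map_zero, map_zero, LO_zero]
  map_add' := by
    intro a b
    ext j
    rw [PowerSeries.coeff_mk, map_add, map_add, LO_add, PowerSeries.coeff_mk,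
      PowerSeries.coeff_mk]

lemma coeff_LV (g : PowerSeries Om) (j : ℕ) :
    PowerSeries.coeff j (LV g) = LO (PowerSeries.coeff (2 * j) g) := by
  exact PowerSeries.coeff_mk j (fun j => LO (PowerSeries.coeff (2 * j) g))

instance : CharP Om 2 := charP_of_injective_algebraMap inj 2

lemma LO_sum {ι : Type*} (t : Finset ι) (F : ι → Om) : LO (∑ i ∈ t, F i) = ∑ i ∈ t, LO (F i) := by
  classical
  induction t using Finset.induction_on with
  | empty => simp [LO_zero]
  | insert a t ha ih => rw [Finset.sum_insert ha, Finset.sum_insert ha, LO_add, ih]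

lemma coeff_sq (a : PowerSeries Om) (n : ℕ) :
    PowerSeries.coeff n (a ^ 2) = if 2 ∣ n then (PowerSeries.coeff (n / 2) a) ^ 2 else 0 := by
  have h : PowerSeries.map (frobenius Om 2) (PowerSeries.expand 2 two_ne_zero a) = a ^ 2 :=
    MvPowerSeries.map_frobenius_expand 2 two_ne_zero
  rw [← h, PowerSeries.coeff_map, PowerSeries.coeff_expand]
  split_ifs
  · rfl
  · exact map_zero _

lemma LV_sq_mul (a b : PowerSeries Om) : LV (a ^ 2 * b) = a * LV b := by
  classical
  ext j
  rw [coeff_LV, PowerSeries.coeff_mul, PowerSeries.coeff_mul, LO_sum]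
  symm
  apply Finset.sum_of_injOn (fun x => (2 * x.1, 2 * x.2))
  · intro x _ y _ hxy
    simp only [Prod.mk.injEq] at hxy
    exact Prod.ext (by omega) (by omega)
  · intro x hx
    simp only [Finset.mem_coe, Finset.HasAntidiagonal.mem_antidiagonal] at hx ⊢
    omega
  · intro x hx hx'
    rw [coeff_sq]
    split_ifs with h
    · exfalso
      apply hx'
      rw [Finset.HasAntidiagonal.mem_antidiagonal] at hx
      obtain ⟨k, hk⟩ := h
      refine ⟨(k, x.2 / 2), ?_, ?_⟩
      · simp only [Finset.mem_coe, Finset.HasAntidiagonal.mem_antidiagonal]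
        omega
      · apply Prod.ext
        · simp only
          omega
        · simp only
          omega
    · rw [zero_mul, LO_zero]
  · intro x hx
    simp only
    rw [coeff_sq, if_pos ⟨x.1, rfl⟩, Nat.mul_div_cancel_left _ (by norm_num), LO_sq_mul,
      coeff_LV]

end Pool.Agent.H215R3.DF
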